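import Pool.Agent.P8H1.KC.Defs
import Pool.Agent.P8H1.PD.Res
import Pool.Agent.N65.TK.Res
set_option autoImplicit false

/-!
The elements `xi` are cocycles without residues.
-/

namespace Pool.Agent.P8H1.KC

open Pool.Agent.N65.TK (Pt FS br dif wedge al tu tu_mul tu_inv tu_pow tu_torsion alt_add1 alt_smul1
  alt_smul2 alt_swap23 alt_eq12 alt_eq23 alt_eq13 alt_add2 alt_add3 bnd redB red Red redB_eq_zero
  one_lt_val_pair val_torsion Kap)
open scoped WithZero

section alt

variable {V W : Type*} [AddCommGroup V] [Module ℚ V] [AddCommGroup W] [Module ℚ W]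

theorem alt_swap12 (φ : V [⋀^Fin 3]→ₗ[ℚ] W) (e u w : V) : φ ![u, e, w] = -φ ![e, u, w] := by
  have h := alt_eq12 φ (e + u) w
  rw [alt_add1, alt_add2, alt_add2, alt_eq12, alt_eq12, zero_add, add_zero] at h
  exact eq_neg_of_add_eq_zero_right h

theorem alt_cyc (φ : V [⋀^Fin 3]→ₗ[ℚ] W) (e u w : V) : φ ![w, e, u] = φ ![e, u, w] := by
  rw [alt_swap12, alt_swap23 φ e u w, neg_neg]

end alt

variable {K : Type*} [Field K] {n : ℕ} {ε η : Kˣ}

theorem eta_pow (h : (η : K) + (η⁻¹ : Kˣ) = 1) : η ^ 6 = 1 := by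
  have h1 : (η : K) * (η⁻¹ : Kˣ) = 1 := Units.mul_inv _
  have h2 : (η : K) ^ 2 = η - 1 := by linear_combination (η : K) * h - h1
  ext
  push_cast
  linear_combination ((η : K) ^ 4 + (η : K) ^ 3 - (η : K) - 1) * h2

theorem co_val {A : Type*} [CommRing A] (f : Pt A) : (f.co : A) = 1 - f.1 := f.2.unit_spec

/-- `(1 - y / η) (1 - 1 / (η y)) = - η⁻¹ x^n` -/
theorem co_mul (hη : (η : K) + (η⁻¹ : Kˣ) = 1) :
    (pty (n := n) hη).co * (ptw (n := n) hη).co = -(uc n η⁻¹) * cx K n ^ n := by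
  ext
  rw [Units.val_mul, co_val, co_val]
  have h1 := prod_y (n := n) hη
  have h4 : (((uc n η * cy K n)⁻¹ : (Crv K n)ˣ) : Crv K n) *
      ((uc n η * cy K n : (Crv K n)ˣ) : Crv K n) = 1 := Units.inv_mul _
  have h5 : (((uc n η * cy K n)⁻¹ : (Crv K n)ˣ) : Crv K n) * (cy K n : Crv K n) =
      (uc n η⁻¹ : (Crv K n)ˣ) := by
    rw [← Units.val_mul, mul_inv, mul_assoc, inv_mul_cancel, mul_one, val_uc_inv]
  show (1 - ((uc n η⁻¹ * cy K n : (Crv K n)ˣ) : Crv K n)) *
    (1 - (((uc n η * cy K n)⁻¹ : (Crv K n)ˣ) : Crv K n)) = _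
  rw [Units.val_mul (cy K n)] at h1
  have h7 : ((-(uc n η⁻¹) * cx K n ^ n : (Crv K n)ˣ) : Crv K n) =
      -((uc n η⁻¹ : (Crv K n)ˣ) : Crv K n) * ((cx K n ^ n : (Crv K n)ˣ) : Crv K n) := by
    rw [Units.val_mul, Units.val_neg]
  rw [h7]
  linear_combination (-(((uc n η * cy K n)⁻¹ : (Crv K n)ˣ) : Crv K n)) * h1 -
    (1 - ((uc n η⁻¹ * cy K n : (Crv K n)ˣ) : Crv K n)) * h4 +
    ((cx K n ^ n : (Crv K n)ˣ) : Crv K n) * h5 * (-1)

theorem tu_uc {c : Kˣ} {m : ℕ} (hm : 0 < m) (h : c ^ m = 1) : tu (uc n c) = 0 :=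
  tu_torsion hm (uc_pow h)

theorem dif_xi (hn : 0 < n) (hε : ε ^ n = 1) (hη : (η : K) + (η⁻¹ : Kˣ) = 1) :
    dif (Crv K n) (xi hε hη) = 0 := by
  have h6 := eta_pow hη
  have h6' : (η⁻¹) ^ 6 = 1 := by rw [inv_pow, h6, inv_one]
  have key : ∀ (f : Pt (Crv K n)) (g : (Crv K n)ˣ), dif (Crv K n) (br f g) =
      al (Crv K n) ![tu f.co, tu f.1, tu g] := by
    intro f g
    unfold dif br
    rw [Finsupp.linearCombination_single, one_smul]
    rfl
  have t1 : tu (pty (n := n) hη).1 = tu (cy K n) := by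
    show tu (uc n η⁻¹ * cy K n) = _
    rw [tu_mul, tu_uc (by norm_num) h6', zero_add]
  have t2 : tu (ptw (n := n) hη).1 = (-1 : ℚ) • tu (cy K n) := by
    show tu (uc n η * cy K n)⁻¹ = _
    rw [tu_inv, tu_mul, tu_uc (by norm_num) h6, zero_add, neg_one_smul]
  have t3 : tu (ptx hε).1 = tu (cx K n) := by
    show tu (uc n ε * cx K n) = _
    rw [tu_mul, tu_uc hn hε, zero_add]
  have t4 : tu (pty (n := n) hη).co + tu (ptw (n := n) hη).co = (n : ℚ) • tu (cx K n) := by
    rw [← tu_mul, co_mul, tu_mul, tu_pow]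
    have : tu (-(uc n η⁻¹)) = 0 := by
      refine tu_torsion (N := 6) (by norm_num) ?_
      rw [Even.neg_pow (by decide), uc_pow h6']
    rw [this, zero_add]
  unfold xi
  rw [map_sub, map_sub, map_smul, key, key, key, t1, t2, t3, alt_smul2, neg_one_smul, sub_neg_eq_add,
    ← alt_add1, t4, alt_smul1,
    alt_cyc _ (tu (cx K n)) (tu (cy K n)) (tu (ptx hε).co), sub_self]

section res

variable {L : Type*} [Field L] (v : Valuation L ℤᵐ⁰)

theorem redB_congr {f g : Pt L} (h : v ((f.1 : L) - g.1) < 1) : redB v f = redB v g := by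
  have key : ∀ (f g : Pt L), v ((f.1 : L) - g.1) < 1 → ∀ u, Red v f u → Red v g u := by
    rintro f g h u ⟨x, hx, hu⟩
    have h1 : (f.1 : L) - g.1 ∈ v.valuationSubring := (v.mem_valuationSubring_iff _).2 h.le
    refine ⟨x - ⟨_, h1⟩, ?_, ?_⟩
    · show (x : L) - ((f.1 : L) - g.1) = g.1
      rw [hx]
      ring
    · rw [Pool.Agent.P8H1.PD.red_sub, hu]
      have h2 : red v ⟨_, h1⟩ = 0 := by
        by_contra h3
        have := (Pool.Agent.P8H1.PD.red_ne_zero v).1 h3
        exact absurd this h.ne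
      rw [h2, sub_zero]
  have h2 : ∀ u, Red v f u ↔ Red v g u := by
    intro u
    refine ⟨key f g h u, key g f ?_ u⟩
    rwa [Valuation.map_sub_swap]
  have huniq : ∀ u w, Red v f u → Red v f w → u = w := by
    rintro u w ⟨x, hx, hu⟩ ⟨y, hy, hw⟩
    have h3 : x = y := Subtype.ext (hx.trans hy.symm)
    rw [h3, hw] at hu
    exact Subtype.ext (Units.ext hu.symm)
  unfold redB
  by_cases hf : ∃ u, Red v f u
  · have hg : ∃ u, Red v g u := hf.imp fun u hu => (h2 u).1 hu
    rw [dif_pos hf, dif_pos hg, huniq _ _ hf.choose_spec ((h2 _).2 hg.choose_spec)]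
  · have hg : ¬ ∃ u, Red v g u := fun hg => hf (hg.imp fun u hu => (h2 u).2 hu)
    rw [dif_neg hf, dif_neg hg]

theorem bnd_xi (hn : 0 < n) (hε : ε ^ n = 1) (hη : (η : K) + (η⁻¹ : Kˣ) = 1)
    (φ : Crv K n →+* L) : bnd v (FS.map φ (xi hε hη)) = 0 := by
  have h6 := eta_pow hη
  set X : Lˣ := Units.map (φ : Crv K n →* L) (cx K n) with hX
  set Y : Lˣ := Units.map (φ : Crv K n →* L) (cy K n) with hY
  have hc : ∀ {c : Kˣ} {m : ℕ}, 0 < m → c ^ m = 1 →
      v ((Units.map (φ : Crv K n →* L) (uc n c) : Lˣ) : L) = 1 := by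
    intro c m hm h
    refine val_torsion v hm ?_
    rw [← Units.val_pow_eq_pow_val, ← map_pow, uc_pow h, map_one, Units.val_one]
  have hrel : (Y : L) + (Y⁻¹ : Lˣ) - 1 = (X : L) ^ n := by
    have h1 := congrArg φ (rel_y (K := K) (n := n))
    rw [map_sub, map_add, map_one, map_pow] at h1
    have h2 : ((Y⁻¹ : Lˣ) : L) = φ ((cy K n)⁻¹ : (Crv K n)ˣ) := by
      rw [hY, ← map_inv]
      rfl
    rw [h2]
    exact h1
  have hYY : (Y : L) * (Y⁻¹ : Lˣ) = 1 := Units.mul_inv _
  have hpair : (1 - (Y : L)) * (1 - ((Y⁻¹ : Lˣ) : L)) = 1 - (X : L) ^ n := by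
    rw [← hrel]
    linear_combination hYY
  have fx : (((ptx hε).map φ).1 : L) = (Units.map (φ : Crv K n →* L) (uc n ε) : Lˣ) * X := by
    show (Units.map (φ : Crv K n →* L) (uc n ε * cx K n) : L) = _
    rw [map_mul, Units.val_mul]
  have fy : (((pty (n := n) hη).map φ).1 : L) =
      (Units.map (φ : Crv K n →* L) (uc n η⁻¹) : Lˣ) * Y := by
    show (Units.map (φ : Crv K n →* L) (uc n η⁻¹ * cy K n) : L) = _
    rw [map_mul, Units.val_mul]
  have fw : (((ptw (n := n) hη).map φ).1 : L) =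
      (Units.map (φ : Crv K n →* L) (uc n η⁻¹) : Lˣ) * (Y⁻¹ : Lˣ) := by
    show (Units.map (φ : Crv K n →* L) (uc n η * cy K n)⁻¹ : L) = _
    rw [mul_inv, map_mul, Units.val_mul, ← val_uc_inv, map_inv (Units.map (φ : Crv K n →* L)) (cy K n)]
  have vx : v (((ptx hε).map φ).1 : L) = v (X : L) := by rw [fx, map_mul, hc hn hε, one_mul]
  have h6' : (η⁻¹) ^ 6 = 1 := by rw [inv_pow, h6, inv_one]
  have vy : v (((pty (n := n) hη).map φ).1 : L) = v (Y : L) := by
    rw [fy, map_mul, hc (by norm_num) h6', one_mul]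
  have vw : v (((ptw (n := n) hη).map φ).1 : L) = (v (Y : L))⁻¹ := by
    rw [fw, map_mul, hc (by norm_num) h6', one_mul, Units.val_inv_eq_inv_val, map_inv₀]
  have fu : ((Units.map (φ : Crv K n →* L) (ptx hε).co : Lˣ) : L) =
      1 - (((ptx hε).map φ).1 : L) := by
    show φ ((ptx hε).co : Crv K n) = _
    rw [co_val, map_sub, map_one]
    rfl
  have key : ∀ (f : Pt (Crv K n)) (g : (Crv K n)ˣ), bnd v (FS.map φ (br f g)) =
      ((WithZero.log (v ((Units.map (φ : Crv K n →* L) g : Lˣ) : L)) : ℤ) : ℚ) • redB v (f.map φ) := by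
    intro f g
    unfold br FS.map bnd
    rw [Finsupp.lmapDomain_apply, Finsupp.mapDomain_single, Finsupp.linearCombination_single,
      one_smul]
  unfold xi
  rw [map_sub, map_sub, map_smul, map_sub, map_sub, map_smul, key, key, key, ← hY]
  by_cases hv : v (Y : L) = 1
  · rw [hv, WithZero.log_one, Int.cast_zero, zero_smul, smul_zero, sub_zero]
    by_cases hu : v (1 - (((ptx hε).map φ).1 : L)) = 1
    · rw [fu, hu, WithZero.log_one, Int.cast_zero, zero_smul, zero_smul, sub_zero]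
    · have hX1 : v (X : L) ≤ 1 := by
        have h1 : v ((X : L) ^ n) ≤ 1 := by
          rw [← hrel]
          refine (v.map_sub _ _).trans (max_le ((v.map_add _ _).trans (max_le hv.le ?_)) ?_)
          · rw [Units.val_inv_eq_inv_val, map_inv₀, hv, inv_one]
          · rw [map_one]
        rw [map_pow] at h1
        exact (pow_le_one_iff hn.ne').1 h1
      have hu1 : v (1 - (((ptx hε).map φ).1 : L)) < 1 := by
        refine lt_of_le_of_ne ?_ hu
        refine (v.map_sub _ _).trans (max_le (by rw [map_one]) ?_)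
        rw [vx]
        exact hX1
      have hd : v (1 - (X : L) ^ n) < 1 := by
        obtain ⟨q, hq⟩ : ∃ q : L, (1 : L) - (X : L) ^ n = (1 - (((ptx hε).map φ).1 : L)) * q ∧
            v q ≤ 1 := by
          refine ⟨∑ i ∈ Finset.range n, (((ptx hε).map φ).1 : L) ^ i, ?_, ?_⟩
          · have h1 : (((ptx hε).map φ).1 : L) ^ n = (X : L) ^ n := by
              rw [fx, mul_pow, ← Units.val_pow_eq_pow_val, ← map_pow, uc_pow hε, map_one,
                Units.val_one, one_mul]
            rw [← h1, mul_neg_geom_sum]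
          · refine Valuation.map_sum_le _ fun i _ => ?_
            rw [map_pow, vx]
            exact pow_le_one' hX1 i
        rw [hq.1, map_mul]
        exact mul_lt_one_of_lt_of_le hu1 hq.2
      have hy : v (1 - (Y : L)) < 1 := by
        have h2 : (1 - ((Y⁻¹ : Lˣ) : L)) = -((1 - (Y : L)) * (Y⁻¹ : Lˣ)) := by
          linear_combination -hYY
        rw [← hpair, h2, mul_neg, Valuation.map_neg, map_mul, map_mul, Units.val_inv_eq_inv_val,
          map_inv₀, hv, inv_one, mul_one] at hd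
        by_contra h3
        rw [not_lt] at h3
        exact absurd hd (not_lt.2 (one_le_mul h3 h3))
      have heq : redB v ((pty (n := n) hη).map φ) = redB v ((ptw (n := n) hη).map φ) := by
        refine redB_congr v ?_
        have h3 : (((pty (n := n) hη).map φ).1 : L) - (((ptw (n := n) hη).map φ).1 : L) =
            (Units.map (φ : Crv K n →* L) (uc n η⁻¹) : Lˣ) *
              (-((1 - (Y : L)) * (1 + (Y⁻¹ : Lˣ)))) := by
          rw [fy, fw]
          linear_combination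
            ((Units.map (φ : Crv K n →* L) (uc n η⁻¹) : Lˣ) : L) * (-hYY)
        rw [h3, map_mul, hc (by norm_num) h6', one_mul, Valuation.map_neg, map_mul]
        refine mul_lt_one_of_lt_of_le hy ?_
        refine (v.map_add _ _).trans (max_le (by rw [map_one]) ?_)
        rw [Units.val_inv_eq_inv_val, map_inv₀, hv, inv_one]
      rw [heq, sub_self]
  · have hX1 : v (X : L) ≠ 1 := by
      intro h1
      have h2 := one_lt_val_pair v hv
      rw [hpair] at h2
      have h3 : v (1 - (X : L) ^ n) ≤ 1 := by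
        refine (v.map_sub _ _).trans (max_le (by rw [map_one]) ?_)
        rw [map_pow, h1, one_pow]
      exact absurd h2 (not_lt.2 h3)
    rw [redB_eq_zero v (f := (pty (n := n) hη).map φ) fun h => hv (vy ▸ h.1),
      redB_eq_zero v (f := (ptw (n := n) hη).map φ) fun h => hv (inv_eq_one.1 (vw ▸ h.1)),
      redB_eq_zero v (f := (ptx hε).map φ) fun h => hX1 (vx ▸ h.1)]
    simp

end res

end Pool.Agent.P8H1.KC
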