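import Pool.Agent.P8H1.KC.Bnd
set_option autoImplicit false

/-!
The regulator of `xi` on the loops, and its limit.
-/

namespace Pool.Agent.P8H1.KC

open Real Set Filter Topology MeasureTheory
open Pool.Agent.N65.TK (Pt Path FS br D D_of_mem Li_im not_mem_S1)
open Pool.Agent.W367.KT (Li S1 D1 hd_im S2 hasDerivAt_Li isOpen_S1)

section ident

variable {K : Type*} [Field K] {n : ℕ} (σ : K →+* ℂ) (hn : 0 < n) {e : ℝ} (he : 0 < e) {ρ : ℂˣ}
  (hρ : ρ ^ n = 1)

theorem ld_of {A : Type*} [CommRing A] (γ : Path A) (f : Aˣ) (t : ℝ) {u : ℝ → ℂ} {l : ℂ}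
    (h : ∀ s, γ.e s f = u s) (hu : HasDerivAt u (u t * l) t) : γ.ld f t = l := by
  have h0 := γ.ne_zero f t
  have h1 : (fun s => γ.e s f) = u := funext h
  unfold Path.ld
  rw [h1, hu.deriv, h t]
  rw [h t] at h0
  field_simp

theorem pth_ld_y (t : ℝ) : (pth σ hn he hρ).ld (cy K n) t = ly e t :=
  ld_of _ _ _ (fun s => pth_y σ hn he hρ s) (hd_yy e t)

theorem pth_x (t : ℝ) : (pth σ hn he hρ).e t (cx K n) = ρ * xx n e t := by
  unfold cx
  rw [pth_mn]
  simp

theorem pth_ld_x (t : ℝ) : (pth σ hn he hρ).ld (cx K n) t = lW e t / n :=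
  ld_of _ _ _ (fun s => pth_x σ hn he hρ s)
    (((hd_xx n he t).const_mul (ρ : ℂ)).congr_deriv (by ring))

theorem pth_ln_y (t : ℝ) : (pth σ hn he hρ).ln (cy K n) t = bb e t := by
  unfold Path.ln
  rw [pth_y, norm_yy, Real.log_exp]

theorem eta_val {η : Kˣ} (hη : (η : K) + (η⁻¹ : Kˣ) = 1) :
    ‖σ η‖ = 1 ∧ (σ η).im ≠ 0 := by
  have h6 : (σ η) ^ 6 = 1 := by
    rw [← map_pow, ← Units.val_pow_eq_pow_val, eta_pow hη, Units.val_one, map_one]
  have h1 : (σ η) ^ 2 - σ η + 1 = 0 := by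
    have h2 : (η : K) ^ 2 - η + 1 = 0 := by
      have h3 : (η : K) * (η⁻¹ : Kˣ) = 1 := Units.mul_inv _
      linear_combination (η : K) * hη - h3
    have h3 := congrArg σ h2
    rwa [map_add, map_sub, map_pow, map_one, map_zero] at h3
  constructor
  · have h2 : ‖σ η‖ ^ 6 = 1 := by rw [← norm_pow, h6, norm_one]
    exact (pow_eq_one_iff_of_nonneg (norm_nonneg _) (by norm_num)).1 h2
  · intro h
    have h3 : σ η = ((σ η).re : ℂ) := Complex.ext rfl (by rw [h, Complex.ofReal_im])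
    rw [h3] at h1
    have h4 : (σ η).re ^ 2 - (σ η).re + 1 = 0 := by exact_mod_cast h1
    nlinarith [sq_nonneg ((σ η).re - 1 / 2)]

theorem yy_int {t : ℝ} (h : Real.sin (2 * π * t) = 0) (h' : Real.cos (2 * π * t) = 1) :
    yy e t = ((Real.exp (bb e t) : ℝ) : ℂ) := by
  apply Complex.ext
  · rw [yy_re, h', mul_one, Complex.ofReal_re]
  · rw [yy_im, h, mul_zero, Complex.ofReal_im]

theorem BB_zero {η : Kˣ} (hη : (η : K) + (η⁻¹ : Kˣ) = 1) {t : ℝ}
    (h : Real.sin (2 * π * t) = 0) (h' : Real.cos (2 * π * t) = 1) :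
    BB hη (pth σ hn he hρ) t = 0 := by
  obtain ⟨h1, h2⟩ := eta_val σ hη
  unfold BB
  rw [pth_pty, pth_ptw, yy_int h h']
  set a := Real.exp (bb e t) with ha
  have ha0 : 0 < a := Real.exp_pos _
  have h3 : (σ η)⁻¹ = (starRingEnd ℂ) (σ η) := Complex.inv_eq_conj h1
  have h4 : (σ η)⁻¹ * (a : ℂ) = (starRingEnd ℂ) (σ η * a) := by
    rw [map_mul, Complex.conj_ofReal, h3]
  have h5 : (σ η * (a : ℂ)).im ≠ 0 := by
    rw [Complex.im_mul_ofReal]
    exact mul_ne_zero h2 ha0.ne'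
  rw [h4, D_conj h5, D_inv h5, sub_self]

theorem pth_BB_zero {η : Kˣ} (hη : (η : K) + (η⁻¹ : Kˣ) = 1) :
    BB hη (pth σ hn he hρ) 0 = 0 :=
  BB_zero σ hn he hρ hη (by simp) (by simp)

theorem pth_BB_one {η : Kˣ} (hη : (η : K) + (η⁻¹ : Kˣ) = 1) :
    BB hη (pth σ hn he hρ) 1 = 0 :=
  BB_zero σ hn he hρ hη (by rw [mul_one]; exact Real.sin_two_pi) (by rw [mul_one]; exact Real.cos_two_pi)

theorem ln_per {A : Type*} [CommRing A] (γ : Path A) (f : Aˣ) : γ.ln f 1 = γ.ln f 0 := by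
  unfold Path.ln
  have h := γ.periodic 0
  rw [zero_add] at h
  rw [h]

/-- the value of the regulator, in terms of `κ = σ(ε) ρ` -/
noncomputable def rg (n : ℕ) (κ : ℂ) (e : ℝ) : ℝ :=
  -(n * ∫ t in (0 : ℝ)..1, (Li (κ * xx n e t)).im * (2 * π)) + ∫ t in (0 : ℝ)..1, Ee n κ e t

end ident

section integrable

variable {n : ℕ} (hn : 0 < n) {κ : ℂ} (hκ : κ ^ n = 1) {e : ℝ} (he : 0 < e) (he2 : e ≤ 1 / 2)

include hn hκ he he2

theorem Li_bdd (t : ℝ) (ht : t ∈ Ioo (0 : ℝ) 1) : |(Li (κ * xx n e t)).im * (2 * π)| ≤ 1000 := by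
  have hpi := Real.pi_pos
  have h3 : π ≤ 3.15 := by have := Real.pi_lt_d2; linarith
  have h1 := Li_im_le (zz_mem hn hκ he ht)
  have h2 := norm_zz_le hn hκ he he2 t
  rw [abs_mul, abs_of_pos (by positivity : 0 < 2 * π)]
  calc |(Li (κ * xx n e t)).im| * (2 * π) ≤ (2 * 3.15 * 7) * (2 * 3.15) := by
        gcongr
        exact h1.trans (by gcongr)
    _ ≤ 1000 := by norm_num

theorem int_Li : IntervalIntegrable (fun t => (Li (κ * xx n e t)).im * (2 * π)) volume 0 1 := by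
  refine int_of_bdd (C := 1000) ?_ (Li_bdd hn hκ he he2)
  intro t ht
  have h1 := (hasDerivAt_Li (zz_mem hn hκ he ht)).continuousAt
  have h2 : ContinuousAt (fun s => κ * xx n e s) t :=
    (continuous_const.mul (xx_smooth n he).continuous).continuousAt
  have h3 : ContinuousAt (fun s => Li (κ * xx n e s)) t := ContinuousAt.comp (g := Li) h1 h2
  exact ((Complex.continuous_im.continuousAt.comp h3).mul continuousAt_const).continuousWithinAt

theorem int_Ee : IntervalIntegrable (Ee n κ e) volume 0 1 := by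
  refine int_of_bdd (C := 3000 * (n + 1) * 4 ^ n) ?_ fun t _ => Ee_le hn hκ he he2 t
  intro t ht
  have h2 : ContinuousAt (fun s => 1 - κ * xx n e s) t :=
    (continuous_const.sub (continuous_const.mul (xx_smooth n he).continuous)).continuousAt
  have h3 : ContinuousAt (fun s => Complex.log (1 - κ * xx n e s)) t :=
    h2.clog (zz_mem hn hκ he ht)
  have h4 : Continuous (lW e) := by
    unfold lW
    refine Continuous.div ?_ (ww_smooth e).continuous (ww_ne he)
    refine ((yy_smooth e).continuous.sub ((yy_smooth e).continuous.inv₀ (yy_ne e))).mul ?_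
    unfold ly
    fun_prop
  have h5 : ContinuousAt (fun s => (Complex.log (1 - κ * xx n e s) * lW e s).re) t :=
    Complex.continuous_re.continuousAt.comp (h3.mul h4.continuousAt)
  exact ((bb_smooth e).continuous.continuousAt.mul h5).continuousWithinAt

end integrable

section ident2

variable {K : Type*} [Field K] {n : ℕ} (σ : K →+* ℂ) (hn : 0 < n) {e : ℝ} (he : 0 < e) {ρ : ℂˣ}
  (hρ : ρ ^ n = 1)

theorem kap_pow {ε : Kˣ} (hε : ε ^ n = 1) (hρ : ρ ^ n = 1) : (σ ε * (ρ : ℂ)) ^ n = 1 := by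
  rw [mul_pow, ← map_pow, ← Units.val_pow_eq_pow_val, hε, ← Units.val_pow_eq_pow_val, hρ]
  simp

theorem reg_pth (he2 : e ≤ 1 / 2) {ε η : Kˣ} (hε : ε ^ n = 1)
    (hη : (η : K) + (η⁻¹ : Kˣ) = 1) :
    (pth σ hn he hρ).reg (xi hε hη) = rg n (σ ε * ρ) e := by
  set κ := σ ε * (ρ : ℂ) with hκd
  have hκ : κ ^ n = 1 := kap_pow σ hε hρ
  set γ := pth σ hn he hρ with hγ
  have hz : ∀ t, zt hε γ t = κ * xx n e t := fun t => pth_ptx σ hn he hρ hε t
  have hLi : ∀ t, (Li (zt hε γ t)).im * (γ.ld (cy K n) t).im =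
      (Li (κ * xx n e t)).im * (2 * π) := by
    intro t
    rw [hz, hγ, pth_ld_y]
    congr 1
    unfold ly
    rw [Complex.add_im, Complex.ofReal_im, zero_add, Complex.im_ofReal_mul, Complex.I_im, mul_one]
  have hEr : ∀ t, Er hε γ t = Ee n κ e t := by
    intro t
    unfold Er Ee
    rw [hz, hγ, pth_ln_y, pth_ld_x]
    have : (n : ℂ) ≠ 0 := by exact_mod_cast hn.ne'
    rw [mul_div_cancel₀ _ this]
  have hcont : Continuous fun t => -(1 / 3 : ℝ) *
      (γ.ln (ptx hε).co t * γ.ln (cy K n) t * (n * γ.ln (cx K n) t)) :=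
    continuous_const.mul (((γ.cont_ln _).mul (γ.cont_ln _)).mul (continuous_const.mul (γ.cont_ln _)))
  have hBB : Continuous (BB hη γ) := by
    unfold BB
    exact (γ.cont_D _).sub (γ.cont_D _)
  have hlim : ∀ (l : Filter ℝ) (a : ℝ), l ≤ 𝓝 a → BB hη γ a = 0 →
      Tendsto (Psi hε hη γ) l (𝓝 (-(1 / 3 : ℝ) *
      (γ.ln (ptx hε).co a * γ.ln (cy K n) a * (n * γ.ln (cx K n) a)))) := by
    intro l a hl h0
    have h1 := (hcont.tendsto a).mono_left hl
    have h2 : Tendsto (fun t => BB hη γ t * (Complex.log (1 - zt hε γ t)).im) l (𝓝 0) := by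
      have h3 : Tendsto (BB hη γ) l (𝓝 0) := by
        have := (hBB.tendsto a).mono_left hl
        rwa [h0] at this
      have h4 : Tendsto (fun t => |BB hη γ t| * π) l (𝓝 0) := by
        have := (h3.abs.mul_const π)
        rwa [abs_zero, zero_mul] at this
      refine squeeze_zero_norm (fun t => ?_) h4
      rw [norm_mul, Real.norm_eq_abs, Real.norm_eq_abs, Complex.log_im]
      exact mul_le_mul_of_nonneg_left (Complex.abs_arg_le_pi _) (abs_nonneg _)
    have h3 := h1.add h2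
    rw [add_zero] at h3
    exact h3
  have h0 := hlim (𝓝[>] 0) 0 nhdsWithin_le_nhds (pth_BB_zero σ hn he hρ hη)
  have h1 := hlim (𝓝[<] 1) 1 nhdsWithin_le_nhds (pth_BB_one σ hn he hρ hη)
  rw [ln_per γ, ln_per γ, ln_per γ] at h1
  have hz' : ∀ t ∈ Ioo (0 : ℝ) 1, 1 - zt hε γ t ∈ Complex.slitPlane := by
    intro t ht
    rw [hz]
    exact zz_mem hn hκ he ht
  have i1 : IntervalIntegrable (fun t => (Li (zt hε γ t)).im * (γ.ld (cy K n) t).im) volume 0 1 := by
    simp only [hLi]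
    exact int_Li hn hκ he he2
  have i2 : IntervalIntegrable (Er hε γ) volume 0 1 := by
    have : Er hε γ = Ee n κ e := funext hEr
    rw [this]
    exact int_Ee hn hκ he he2
  rw [reg_eq hn hε hη γ hz' h0 h1 i1 i2]
  unfold rg
  simp only [hLi, hEr]

end ident2

section limit

theorem lim_bb (t : ℝ) : ContinuousAt (fun e => bb e t) 0 := by
  unfold bb
  fun_prop

theorem bb_zero (t : ℝ) : bb 0 t = 0 := by
  unfold bb
  rw [zero_mul]

theorem lim_yy (t : ℝ) : ContinuousAt (fun e => yy e t) 0 := by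
  unfold yy bb
  fun_prop

theorem lim_ww (t : ℝ) : ContinuousAt (fun e => ww e t) 0 := by
  unfold ww
  exact ((lim_yy t).add ((lim_yy t).inv₀ (yy_ne 0 t))).sub continuousAt_const

theorem ww_zero_im (t : ℝ) : (ww 0 t).im = 0 := by
  rw [ww_im, bb_zero, Real.sinh_zero]
  ring

theorem ww_zero_re (t : ℝ) : (ww 0 t).re = 2 * Real.cos (2 * π * t) - 1 := by
  rw [ww_re, bb_zero, Real.cosh_zero]
  ring

theorem slit_zero {t : ℝ} (h : ww 0 t ≠ 0) : -Complex.I * ww 0 t ∈ Complex.slitPlane := by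
  rw [Complex.mem_slitPlane_iff]
  right
  have h1 : (ww 0 t).re ≠ 0 := fun h2 => h (Complex.ext h2 (ww_zero_im t))
  simpa using h1

theorem lim_xx (n : ℕ) {t : ℝ} (h : ww 0 t ≠ 0) : ContinuousAt (fun e => xx n e t) 0 := by
  unfold xx lw
  have h1 : ContinuousAt (fun e => -Complex.I * ww e t) 0 := continuousAt_const.mul (lim_ww t)
  exact ((((h1.clog (slit_zero h)).add continuousAt_const).div_const _)).cexp

theorem xx_pow_zero {n : ℕ} (hn : 0 < n) {t : ℝ} (h : ww 0 t ≠ 0) : xx n 0 t ^ n = ww 0 t := by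
  unfold xx
  rw [← Complex.exp_nat_mul, mul_div_cancel₀ _ (by exact_mod_cast hn.ne')]
  unfold lw
  rw [Complex.exp_add, Complex.exp_log (Complex.slitPlane_ne_zero (slit_zero h)),
    Complex.exp_pi_div_two_mul_I]
  linear_combination (-ww 0 t) * Complex.I_sq

/-- outside a countable set -/
theorem ww_zero_ne {t : ℝ} (h : (∀ k : ℤ, t ≠ 1 / 6 - k) ∧ (∀ k : ℤ, t ≠ k - 1 / 6)) :
    ww 0 t ≠ 0 := by
  intro h0
  have h1 : Real.cos (2 * π * t) = Real.cos (π / 3) := by
    have h2 := ww_zero_re t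
    rw [h0, Complex.zero_re] at h2
    rw [Real.cos_pi_div_three]
    linarith
  have hpi := Real.pi_pos
  rw [Real.cos_eq_cos_iff] at h1
  obtain ⟨k, hk | hk⟩ := h1
  · refine h.1 k ?_
    have h3 : π * (t - (1 / 6 - k)) = 0 := by linarith
    have := (mul_eq_zero.1 h3).resolve_left hpi.ne'
    linarith
  · refine h.2 k ?_
    have h3 : π * (t - (k - 1 / 6)) = 0 := by linarith
    have := (mul_eq_zero.1 h3).resolve_left hpi.ne'
    linarith

theorem ae_good : ∀ᵐ t : ℝ, ww 0 t ≠ 0 ∧ t ≠ 1 := by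
  have h1 : (range fun k : ℤ => (1 / 6 - k : ℝ)).Countable := countable_range _
  have h2 : (range fun k : ℤ => (k - 1 / 6 : ℝ)).Countable := countable_range _
  have h3 : ({1} : Set ℝ).Countable := countable_singleton 1
  filter_upwards [h1.ae_notMem volume, h2.ae_notMem volume, h3.ae_notMem volume] with t h4 h5 h6
  exact ⟨ww_zero_ne ⟨fun k hk => h4 ⟨k, hk.symm⟩, fun k hk => h5 ⟨k, hk.symm⟩⟩, h6⟩

theorem ww_zero_lt {t : ℝ} (ht : t ∈ Ioo (0 : ℝ) 1) : (ww 0 t).re < 1 := by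
  rw [ww_zero_re]
  have h1 : Real.cos (2 * π * t) ≠ 1 := by
    intro h
    have hpi := Real.pi_pos
    rw [Real.cos_eq_one_iff] at h
    obtain ⟨k, hk⟩ := h
    have h2 : π * ((k : ℝ) - t) = 0 := by linarith
    have h3 := (mul_eq_zero.1 h2).resolve_left hpi.ne'
    have h4 : (0 : ℝ) < k := by linarith [ht.1]
    have h5 : (k : ℝ) < 1 := by linarith [ht.2]
    have h4' : 0 < k := by exact_mod_cast h4
    have h5' : k < 1 := by exact_mod_cast h5
    omega
  have h2 := lt_of_le_of_ne (Real.cos_le_one _) h1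
  linarith

theorem zz_mem_zero {n : ℕ} (hn : 0 < n) {κ : ℂ} (hκ : κ ^ n = 1) {t : ℝ} (ht : t ∈ Ioo (0 : ℝ) 1)
    (h : ww 0 t ≠ 0) : κ * xx n 0 t ∈ S1 := by
  refine mem_S1_of (n := n) (w := ww 0 t) ?_ (Or.inr (ww_zero_lt ht))
  rw [mul_pow, hκ, one_mul, xx_pow_zero hn h]

theorem tendsto_rg {n : ℕ} (hn : 0 < n) {κ : ℂ} (hκ : κ ^ n = 1) :
    Tendsto (rg n κ) (𝓝[>] 0) (𝓝 (-(n * ∫ t in (0 : ℝ)..1, (Li (κ * xx n 0 t)).im * (2 * π)))) := by
  have hsmall : ∀ᶠ e : ℝ in 𝓝[>] 0, 0 < e ∧ e ≤ 1 / 2 := by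
    have h1 : ∀ᶠ e : ℝ in 𝓝[>] 0, e ≤ 1 / 2 :=
      nhdsWithin_le_nhds (Iic_mem_nhds (by norm_num : (0 : ℝ) < 1 / 2))
    filter_upwards [self_mem_nhdsWithin, h1] with e h2 h3
    exact ⟨h2, h3⟩
  have h1 : Tendsto (fun e => ∫ t in (0 : ℝ)..1, (Li (κ * xx n e t)).im * (2 * π)) (𝓝[>] 0)
      (𝓝 (∫ t in (0 : ℝ)..1, (Li (κ * xx n 0 t)).im * (2 * π))) := by
    refine intervalIntegral.tendsto_integral_filter_of_dominated_convergence (fun _ => (1000 : ℝ))
      ?_ ?_ intervalIntegrable_const ?_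
    · filter_upwards [hsmall] with e he
      have := (int_Li hn hκ he.1 he.2).aestronglyMeasurable
      rwa [uIoc_of_le zero_le_one]
    · filter_upwards [hsmall] with e he
      filter_upwards [ae_good] with t ht ht2
      rw [uIoc_of_le zero_le_one] at ht2
      exact Li_bdd hn hκ he.1 he.2 t ⟨ht2.1, lt_of_le_of_ne ht2.2 ht.2⟩
    · filter_upwards [ae_good] with t ht ht2
      rw [uIoc_of_le zero_le_one] at ht2
      have ht3 : t ∈ Ioo (0 : ℝ) 1 := ⟨ht2.1, lt_of_le_of_ne ht2.2 ht.2⟩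
      have h2 : ContinuousAt (fun e => κ * xx n e t) 0 := continuousAt_const.mul (lim_xx n ht.1)
      have h3 := (hasDerivAt_Li (zz_mem_zero hn hκ ht3 ht.1)).continuousAt
      have h4 : ContinuousAt (fun e => Li (κ * xx n e t)) 0 := ContinuousAt.comp (g := Li) h3 h2
      have h5 : ContinuousAt (fun e => (Li (κ * xx n e t)).im * (2 * π)) 0 :=
        (Complex.continuous_im.continuousAt.comp h4).mul continuousAt_const
      exact h5.tendsto.mono_left nhdsWithin_le_nhds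
  have h2 : Tendsto (fun e => ∫ t in (0 : ℝ)..1, Ee n κ e t) (𝓝[>] 0) (𝓝 0) := by
    have h0 : (∫ _ in (0 : ℝ)..1, (0 : ℝ)) = 0 := by simp
    suffices h00 : Tendsto (fun e => ∫ t in (0 : ℝ)..1, Ee n κ e t) (𝓝[>] 0)
        (𝓝 (∫ _ in (0 : ℝ)..1, (0 : ℝ))) by
      rwa [h0] at h00
    refine intervalIntegral.tendsto_integral_filter_of_dominated_convergence
      (fun _ => (3000 * (n + 1) * 4 ^ n : ℝ)) ?_ ?_ intervalIntegrable_const ?_
    · filter_upwards [hsmall] with e he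
      have := (int_Ee hn hκ he.1 he.2).aestronglyMeasurable
      rwa [uIoc_of_le zero_le_one]
    · filter_upwards [hsmall] with e he
      exact Eventually.of_forall fun t _ => Ee_le hn hκ he.1 he.2 t
    · filter_upwards [ae_good] with t ht ht2
      rw [uIoc_of_le zero_le_one] at ht2
      have ht3 : t ∈ Ioo (0 : ℝ) 1 := ⟨ht2.1, lt_of_le_of_ne ht2.2 ht.2⟩
      have h2 : ContinuousAt (fun e => 1 - κ * xx n e t) 0 :=
        continuousAt_const.sub (continuousAt_const.mul (lim_xx n ht.1))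
      have h3 : ContinuousAt (fun e => Complex.log (1 - κ * xx n e t)) 0 :=
        h2.clog (zz_mem_zero hn hκ ht3 ht.1)
      have h4 : ContinuousAt (fun e => lW e t) 0 := by
        unfold lW
        refine ContinuousAt.div₀ (((lim_yy t).sub ((lim_yy t).inv₀ (yy_ne 0 t))).mul ?_) (lim_ww t) ht.1
        unfold ly
        fun_prop
      have h5 : ContinuousAt (fun e => (Complex.log (1 - κ * xx n e t) * lW e t).re) 0 :=
        Complex.continuous_re.continuousAt.comp (h3.mul h4)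
      have h6 : ContinuousAt (fun e => Ee n κ e t) 0 := (lim_bb t).mul h5
      have h7 : Ee n κ 0 t = 0 := by
        unfold Ee
        rw [bb_zero, zero_mul]
      have h8 := h6.tendsto
      rw [h7] at h8
      exact h8.mono_left nhdsWithin_le_nhds
  have h3 := ((h1.const_mul (n : ℝ)).neg).add h2
  rw [add_zero] at h3
  exact h3

end limit

end Pool.Agent.P8H1.KC
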