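import Pool.Agent.P8H1.KC.Reg
set_option autoImplicit false

/-!
The Fourier coefficients of the limit of the regulator.
-/

namespace Pool.Agent.P8H1.KC

open Real Set Filter Topology MeasureTheory
open Pool.Agent.N65.TK (Pt Path FS br D D_of_mem Li_im not_mem_S1)
open Pool.Agent.W367.KT (Li S1 D1 hd_im S2 hasDerivAt_Li isOpen_S1 star_S1)

section parts

theorem arg_div_le {z : ℂ} {t : ℝ} (ht : t ∈ Ioc (0 : ℝ) 1) :
    |Complex.arg (1 - t * z)| ≤ 2 * π * ‖z‖ * t := by
  rcases le_or_gt (t * ‖z‖) (1 / 2) with h | h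
  · have h2 : ‖-(t * z : ℂ)‖ ≤ 1 / 2 := by
      rw [norm_neg, norm_mul, Complex.norm_real, Real.norm_of_nonneg ht.1.le]
      exact h
    have h3 : ‖Complex.log (1 + -(t * z : ℂ))‖ ≤ 3 / 2 * ‖-(t * z : ℂ)‖ :=
      Complex.norm_log_one_add_half_le_self h2
    rw [← sub_eq_add_neg, norm_neg, norm_mul, Complex.norm_real,
      Real.norm_of_nonneg ht.1.le] at h3
    have h4 : |Complex.arg (1 - t * z)| ≤ ‖Complex.log (1 - t * z)‖ := by
      rw [← Complex.log_im]
      exact Complex.abs_im_le_norm _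
    have h5 : 3 / 2 * (t * ‖z‖) ≤ 2 * π * (t * ‖z‖) := by
      have := Real.pi_gt_three
      have h6 : 0 ≤ t * ‖z‖ := mul_nonneg ht.1.le (norm_nonneg _)
      nlinarith
    calc |Complex.arg (1 - t * z)| ≤ 3 / 2 * (t * ‖z‖) := h4.trans h3
      _ ≤ 2 * π * (t * ‖z‖) := h5
      _ = 2 * π * ‖z‖ * t := by ring
  · have h2 := Complex.abs_arg_le_pi (1 - t * z)
    have := Real.pi_pos
    nlinarith

variable {z : ℂ} (hz : z ∈ S1)

include hz

theorem one_sub_mem {s : ℝ} (hs : s ∈ Icc (0 : ℝ) 1) : 1 - s * z ∈ Complex.slitPlane :=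
  star_S1 z hz s hs

theorem cont_quot : ContinuousOn (fun s : ℝ => (z / (1 - s * z)).im) (Icc 0 1) := by
  intro s hs
  have h1 : ContinuousAt (fun s : ℝ => (1 : ℂ) - s * z) s := by fun_prop
  have h2 : (1 : ℂ) - s * z ≠ 0 := Complex.slitPlane_ne_zero (one_sub_mem hz hs)
  exact (Complex.continuous_im.continuousAt.comp
    (continuousAt_const.div₀ h1 h2)).continuousWithinAt

theorem int_log_quot : IntervalIntegrable (fun s : ℝ => Real.log s * (z / (1 - s * z)).im)
    volume 0 1 := by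
  refine (intervalIntegral.intervalIntegrable_log').mul_continuousOn ?_
  rw [uIcc_of_le zero_le_one]
  exact cont_quot hz

theorem Li_im_log (h0 : z ≠ 0) :
    (Li z).im = -∫ s in (0 : ℝ)..1, Real.log s * (z / (1 - s * z)).im := by
  rw [Li_im h0 hz]
  congr 1
  have i1 : IntervalIntegrable (fun s : ℝ => Complex.arg (1 - s * z) / s) volume 0 1 := by
    refine int_of_bdd (C := 2 * π * ‖z‖) ?_ fun s hs => ?_
    · intro s hs
      have h1 : ContinuousAt (fun s : ℝ => (1 : ℂ) - s * z) s := by fun_prop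
      have h2 := (Complex.continuousAt_arg (one_sub_mem hz ⟨hs.1.le, hs.2.le⟩))
      have h3 : ContinuousAt (fun s : ℝ => Complex.arg (1 - s * z)) s :=
        ContinuousAt.comp (g := Complex.arg) h2 h1
      exact (h3.div₀ continuousAt_id hs.1.ne').continuousWithinAt
    · rw [abs_div, abs_of_pos hs.1, div_le_iff₀ hs.1]
      exact arg_div_le ⟨hs.1, hs.2.le⟩
  have i2 := int_log_quot hz
  have hd : ∀ s ∈ Ioo (0 : ℝ) 1, HasDerivAt (fun s : ℝ => Real.log s * Complex.arg (1 - s * z))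
      (Complex.arg (1 - s * z) / s - Real.log s * (z / (1 - s * z)).im) s := by
    intro s hs
    have h1 : HasDerivAt (fun s : ℝ => (1 : ℂ) - s * z) (-z) s := by
      have h2 : HasDerivAt (fun s : ℝ => (s : ℂ) * z) (1 * z) s :=
        (HasDerivAt.ofReal_comp (hasDerivAt_id s)).mul_const z
      rw [one_mul] at h2
      exact h2.const_sub 1
    have h2 := h1.clog_real (one_sub_mem hz ⟨hs.1.le, hs.2.le⟩)
    have h3 : HasDerivAt (fun s : ℝ => Complex.arg (1 - s * z)) (-z / (1 - s * z)).im s := by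
      have h4 := hd_im h2
      simp only [Complex.log_im] at h4
      exact h4
    refine ((Real.hasDerivAt_log hs.1.ne').mul h3).congr_deriv ?_
    rw [neg_div, Complex.neg_im]
    have := hs.1.ne'
    field_simp
    ring
  have h0' : Tendsto (fun s : ℝ => Real.log s * Complex.arg (1 - s * z)) (𝓝[>] 0) (𝓝 0) := by
    have h1 : Tendsto (fun s : ℝ => 2 * π * ‖z‖ * |Real.log s * s|) (𝓝[>] 0) (𝓝 0) := by
      have h3 : Continuous fun s : ℝ => 2 * π * ‖z‖ * |Real.log s * s| := by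
        have h4 : Continuous fun s : ℝ => Real.log s * s := by
          simpa [mul_comm] using Real.continuous_mul_log
        exact continuous_const.mul h4.abs
      have h4 := (h3.tendsto 0).mono_left (nhdsWithin_le_nhds (s := Ioi 0))
      simpa using h4
    refine squeeze_zero_norm' ?_ h1
    filter_upwards [Ioo_mem_nhdsGT (zero_lt_one' ℝ)] with s hs
    rw [norm_mul, Real.norm_eq_abs, Real.norm_eq_abs, abs_mul, abs_of_pos hs.1]
    calc |Real.log s| * |Complex.arg (1 - s * z)| ≤ |Real.log s| * (2 * π * ‖z‖ * s) :=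
          mul_le_mul_of_nonneg_left (arg_div_le ⟨hs.1, hs.2.le⟩) (abs_nonneg _)
      _ = 2 * π * ‖z‖ * (|Real.log s| * s) := by ring
  have h1' : Tendsto (fun s : ℝ => Real.log s * Complex.arg (1 - s * z)) (𝓝[<] 1) (𝓝 0) := by
    have h1 : ContinuousAt (fun s : ℝ => (1 : ℂ) - s * z) 1 := by fun_prop
    have h2 : ContinuousAt Complex.arg (1 - (1 : ℝ) * z) :=
      Complex.continuousAt_arg (one_sub_mem hz ⟨zero_le_one, le_rfl⟩)
    have h3 : ContinuousAt (fun s : ℝ => Complex.arg (1 - s * z)) 1 :=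
      ContinuousAt.comp (g := Complex.arg) h2 h1
    have h4 := (Real.continuousAt_log one_ne_zero).mul h3
    have h5 := h4.tendsto.mono_left (nhdsWithin_le_nhds (s := Iio 1))
    have h6 : (Real.log * fun s : ℝ => Complex.arg (1 - s * z)) 1 = 0 := by
      rw [Pi.mul_apply, Real.log_one, zero_mul]
    rw [h6] at h5
    exact h5
  have h := intervalIntegral.integral_eq_sub_of_hasDerivAt_of_tendsto zero_lt_one hd (i1.sub i2) h0' h1'
  rw [sub_zero, intervalIntegral.integral_sub i1 i2] at h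
  linarith

end parts

section finite

variable {n : ℕ} {ζ : ℂ} (hζ : IsPrimitiveRoot ζ n)

include hζ

theorem sum_pow_zero {k : ℕ} (hk : ¬n ∣ k) : ∑ m ∈ Finset.range n, (ζ ^ m) ^ k = 0 := by
  have h1 : ζ ^ k ≠ 1 := fun h => hk ((hζ.pow_eq_one_iff_dvd k).1 h)
  have h2 : ∀ m, (ζ ^ m) ^ k = (ζ ^ k) ^ m := fun m => by rw [← pow_mul, ← pow_mul, mul_comm]
  simp only [h2]
  rw [geom_sum_eq h1, ← pow_mul, mul_comm, pow_mul, hζ.pow_eq_one, one_pow, sub_self, zero_div]

theorem sum_pow_n {k : ℕ} (hk : n ∣ k) : ∑ m ∈ Finset.range n, (ζ ^ m) ^ k = n := by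
  obtain ⟨l, rfl⟩ := hk
  have h2 : ∀ m, (ζ ^ m) ^ (n * l) = 1 := fun m => by
    rw [← pow_mul, mul_comm, mul_assoc, pow_mul, hζ.pow_eq_one, one_pow]
  simp only [h2]
  simp

/-- the distribution relation -/
theorem distr {a : ℕ} (h1 : 1 ≤ a) (h2 : a < n) {s z : ℂ} (h : (s * z) ^ n ≠ 1)
    (h' : ∀ m, 1 - s * (ζ ^ m * z) ≠ 0) :
    ∑ m ∈ Finset.range n, (ζ ^ m) ^ (n - a) * (ζ ^ m * z / (1 - s * (ζ ^ m * z))) =
      n * s ^ (a - 1) * z ^ a / (1 - (s * z) ^ n) := by
  have hne : 1 - (s * z) ^ n ≠ 0 := sub_ne_zero.2 h.symm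
  have e1 : ∀ m, (ζ ^ m) ^ (n - a) * (ζ ^ m * z / (1 - s * (ζ ^ m * z))) =
      (∑ k ∈ Finset.range n, z * (s * z) ^ k * (ζ ^ m) ^ (n - a + 1 + k)) / (1 - (s * z) ^ n) := by
    intro m
    have e2 : (s * (ζ ^ m * z)) ^ n = (s * z) ^ n := by
      have : s * (ζ ^ m * z) = ζ ^ m * (s * z) := by ring
      rw [this, mul_pow, ← pow_mul, mul_comm m n, pow_mul, hζ.pow_eq_one, one_pow, one_mul]
    have e3 := mul_neg_geom_sum (s * (ζ ^ m * z)) n
    rw [e2] at e3
    rw [eq_div_iff hne, ← e3]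
    have h3 := h' m
    have e4 : (ζ ^ m) ^ (n - a) * (ζ ^ m * z / (1 - s * (ζ ^ m * z))) *
        ((1 - s * (ζ ^ m * z)) * ∑ i ∈ Finset.range n, (s * (ζ ^ m * z)) ^ i) =
        (ζ ^ m) ^ (n - a) * (ζ ^ m * z) * ∑ i ∈ Finset.range n, (s * (ζ ^ m * z)) ^ i := by
      have hg : ∀ A B C S : ℂ, C ≠ 0 → A * (B / C) * (C * S) = A * B * S := fun A B C S hC => by
        field_simp
      exact hg _ _ _ _ h3
    rw [e4, Finset.mul_sum]
    refine Finset.sum_congr rfl fun k _ => ?_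
    ring
  simp only [e1]
  rw [← Finset.sum_div, Finset.sum_comm]
  congr 1
  have e5 : ∀ k ∈ Finset.range n, (∑ m ∈ Finset.range n, z * (s * z) ^ k * (ζ ^ m) ^ (n - a + 1 + k)) =
      if k = a - 1 then n * s ^ (a - 1) * z ^ a else 0 := by
    intro k hk
    rw [Finset.mem_range] at hk
    rw [← Finset.mul_sum]
    split_ifs with h3
    · have h4 : n ∣ n - a + 1 + k := by
        have : n - a + 1 + k = n := by omega
        rw [this]
      have h5 : z ^ a = z * z ^ (a - 1) := by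
        rw [← pow_succ', Nat.sub_add_cancel h1]
      rw [sum_pow_n hζ h4, h3, h5, mul_pow]
      ring
    · have h4 : ¬n ∣ n - a + 1 + k := by
        rintro ⟨l, hl⟩
        have h5 : l = 1 := by
          have h6 : 0 < l := by
            rcases Nat.eq_zero_or_pos l with h | h
            · rw [h, mul_zero] at hl
              omega
            · exact h
          have h7 : l < 2 := by
            by_contra h8
            have : n * 2 ≤ n * l := Nat.mul_le_mul_left n (by omega)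
            omega
          omega
        rw [h5, mul_one] at hl
        omega
      rw [sum_pow_zero hζ h4, mul_zero]
  rw [Finset.sum_congr rfl e5, Finset.sum_ite_eq' (Finset.range n) (a - 1)]
  rw [if_pos (Finset.mem_range.2 (by omega))]

end finite

section coefficients

variable {n : ℕ} {ζ : ℂ} (hζ : IsPrimitiveRoot ζ n)

/-- the real parts of the powers -/
noncomputable def cf (ζ : ℂ) (a m : ℕ) : ℝ := ((ζ ^ m) ^ a).re

include hζ

theorem pow_conj {a : ℕ} (h2 : a < n) (m : ℕ) :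
    (ζ ^ m) ^ (n - a) = (starRingEnd ℂ) ((ζ ^ m) ^ a) := by
  have hn : n ≠ 0 := by omega
  have h3 : (ζ ^ m) ^ n = 1 := by
    rw [← pow_mul, mul_comm, pow_mul, hζ.pow_eq_one, one_pow]
  have h4 : ‖(ζ ^ m) ^ a‖ = 1 := by
    rw [norm_pow, norm_pow, hζ.norm'_eq_one hn, one_pow, one_pow]
  rw [← Complex.inv_eq_conj h4]
  have h5 : (ζ ^ m) ^ (n - a) * (ζ ^ m) ^ a = 1 := by
    rw [← pow_add, Nat.sub_add_cancel h2.le, h3]
  exact eq_inv_of_mul_eq_one_left h5

/-- the real part of the distribution relation -/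
theorem sum_cf {a : ℕ} (h1 : 1 ≤ a) (h2 : a < n) {s : ℝ} {z : ℂ} (h : ((s : ℂ) * z) ^ n ≠ 1)
    (h' : ∀ m, 1 - (s : ℂ) * (ζ ^ m * z) ≠ 0) :
    ∑ m ∈ Finset.range n, cf ζ a m * (ζ ^ m * z / (1 - s * (ζ ^ m * z))).im =
      ((n * (s : ℂ) ^ (a - 1) * z ^ a / (1 - (s * z) ^ n)).im +
        (n * (s : ℂ) ^ (n - a - 1) * z ^ (n - a) / (1 - (s * z) ^ n)).im) / 2 := by
  rw [← distr hζ h1 h2 h h', ← distr hζ (a := n - a) (by omega) (by omega) h h', Complex.im_sum,
    Complex.im_sum, ← Finset.sum_add_distrib, Finset.sum_div]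
  refine Finset.sum_congr rfl fun m _ => ?_
  have h3 : n - (n - a) = a := by omega
  rw [h3, pow_conj hζ h2, cf, Complex.mul_im, Complex.mul_im, Complex.conj_re, Complex.conj_im]
  ring

/-- the sum of the values of the dilogarithm -/
theorem sum_Li {a : ℕ} (h1 : 1 ≤ a) (h2 : a < n) {z : ℂ} (h0 : z ≠ 0)
    (hz : ∀ m, ζ ^ m * z ∈ S1) (hw : ∀ s ∈ Ioo (0 : ℝ) 1, ((s : ℂ) * z) ^ n ≠ 1) :
    ∑ m ∈ Finset.range n, cf ζ a m * (Li (ζ ^ m * z)).im =
      -∫ s in (0 : ℝ)..1, Real.log s *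
        (((n * (s : ℂ) ^ (a - 1) * z ^ a / (1 - (s * z) ^ n)).im +
        (n * (s : ℂ) ^ (n - a - 1) * z ^ (n - a) / (1 - (s * z) ^ n)).im) / 2) := by
  have hn : n ≠ 0 := by omega
  have hζ0 : ζ ≠ 0 := hζ.ne_zero hn
  have e1 : ∀ m ∈ Finset.range n, cf ζ a m * (Li (ζ ^ m * z)).im =
      -∫ s in (0 : ℝ)..1, Real.log s * (cf ζ a m * (ζ ^ m * z / (1 - s * (ζ ^ m * z))).im) := by
    intro m _
    rw [Li_im_log (hz m) (mul_ne_zero (pow_ne_zero m hζ0) h0), mul_neg,
      ← intervalIntegral.integral_const_mul]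
    congr 1
    refine intervalIntegral.integral_congr fun s _ => ?_
    ring
  rw [Finset.sum_congr rfl e1, Finset.sum_neg_distrib, ← intervalIntegral.integral_finsetSum]
  · congr 1
    refine intervalIntegral.integral_congr_Ioo_of_le zero_le_one fun s hs => ?_
    have h3 := sum_cf hζ h1 h2 (hw s hs) fun m =>
      Complex.slitPlane_ne_zero (one_sub_mem (hz m) ⟨hs.1.le, hs.2.le⟩)
    rw [← h3, Finset.mul_sum]
  · intro m _
    have h3 := (int_log_quot (hz m)).const_mul (cf ζ a m)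
    refine h3.congr fun s _ => ?_
    ring

end coefficients

end Pool.Agent.P8H1.KC
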