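import Pool.Agent.P8H1.KC.Lim
set_option autoImplicit false

/-!
Uniform bounds for the integrands, and the limit of the regulator.
-/

namespace Pool.Agent.P8H1.KC

open Real Set Filter Topology MeasureTheory
open Pool.Agent.N65.TK (Pt Path FS br D D_of_mem Li_im not_mem_S1)
open Pool.Agent.W367.KT (Li S1 D1 hd_im S2 hasDerivAt_Li isOpen_S1)

section bounds

variable {e : ℝ}

theorem bb_le (h0 : 0 < e) (h1 : e ≤ 1 / 2) (t : ℝ) : |bb e t| ≤ 3 / 4 := by
  unfold bb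
  have h2 := Real.neg_one_le_sin (2 * π * t)
  have h3 := Real.sin_le_one (2 * π * t)
  rw [abs_le]
  constructor <;> nlinarith

theorem exp_le (h0 : 0 < e) (h1 : e ≤ 1 / 2) (t : ℝ) : Real.exp |bb e t| ≤ 3 := by
  calc Real.exp |bb e t| ≤ Real.exp 1 := Real.exp_le_exp.2 ((bb_le h0 h1 t).trans (by norm_num))
    _ ≤ 3 := by have := Real.exp_one_lt_d9; linarith

theorem norm_yy_le (h0 : 0 < e) (h1 : e ≤ 1 / 2) (t : ℝ) : ‖yy e t‖ ≤ 3 := by
  rw [norm_yy]
  exact (Real.exp_le_exp.2 (le_abs_self _)).trans (exp_le h0 h1 t)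

theorem norm_yy_inv_le (h0 : 0 < e) (h1 : e ≤ 1 / 2) (t : ℝ) : ‖(yy e t)⁻¹‖ ≤ 3 := by
  rw [norm_inv, norm_yy, ← Real.exp_neg]
  exact (Real.exp_le_exp.2 (neg_le_abs _)).trans (exp_le h0 h1 t)

theorem norm_ww_le (h0 : 0 < e) (h1 : e ≤ 1 / 2) (t : ℝ) : ‖ww e t‖ ≤ 7 := by
  unfold ww
  have h2 := norm_yy_le h0 h1 t
  have h3 := norm_yy_inv_le h0 h1 t
  have h4 := norm_sub_le (yy e t + (yy e t)⁻¹) 1
  have h5 := norm_add_le (yy e t) (yy e t)⁻¹
  rw [norm_one] at h4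
  linarith

theorem norm_ly_le (h0 : 0 < e) (h1 : e ≤ 1 / 2) (t : ℝ) : ‖ly e t‖ ≤ 3 * π := by
  unfold ly
  have hpi := Real.pi_pos
  refine (norm_add_le _ _).trans ?_
  rw [norm_mul, Complex.norm_I, mul_one, Complex.norm_real, Complex.norm_real, Real.norm_eq_abs,
    Real.norm_eq_abs, abs_mul, abs_mul, abs_of_pos h0, abs_of_pos (by positivity : 0 < 2 * π)]
  have h2 := Real.abs_cos_le_one (2 * π * t)
  have h3 : 2 * π * e * |Real.cos (2 * π * t)| ≤ 2 * π * (1 / 2) * 1 := by gcongr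
  linarith

theorem abs_bb_le_ww (h0 : 0 < e) (h1 : e ≤ 1 / 2) (t : ℝ) : |bb e t| ≤ 2 * ‖ww e t‖ := by
  set s := Real.sin (2 * π * t) with hs
  set c := Real.cos (2 * π * t) with hc
  have hsc : s ^ 2 + c ^ 2 = 1 := Real.sin_sq_add_cos_sq _
  have hb := bb_le h0 h1 t
  rcases le_or_gt (1 / 4) (s ^ 2) with h | h
  · have h2 := Complex.abs_im_le_norm (ww e t)
    rw [ww_im, ← hs, abs_mul, abs_mul, abs_two] at h2
    have h3 : |bb e t| ≤ |Real.sinh (bb e t)| := by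
      rw [Real.abs_sinh]
      exact Real.self_le_sinh_iff.2 (abs_nonneg _)
    have h4 : 1 / 2 ≤ |s| := by
      rw [← sq_abs] at h
      nlinarith [abs_nonneg s]
    nlinarith [abs_nonneg s, abs_nonneg (bb e t)]
  · have h2 := Complex.abs_re_le_norm (ww e t)
    rw [ww_re, ← hc] at h2
    have h3 : 3 / 4 ≤ c ^ 2 := by linarith
    have hch : 1 ≤ Real.cosh (bb e t) := Real.one_le_cosh _
    have h4 : 3 / 8 ≤ |2 * Real.cosh (bb e t) * c - 1| := by
      rcases le_or_gt 0 c with h5 | h5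
      · have h6 : 11 / 16 ≤ c := by nlinarith
        rw [le_abs]
        left
        nlinarith
      · rw [le_abs]
        right
        nlinarith
    linarith

theorem norm_one_sub_ww (e t : ℝ) : bb e t ^ 2 ≤ ‖1 - ww e t‖ := by
  have h1 : 1 - ww e t = -((1 - yy e t) ^ 2 * (yy e t)⁻¹) := by
    unfold ww
    have := yy_ne e t
    field_simp
    ring
  have h2 : |Real.exp (bb e t) - 1| ≤ ‖1 - yy e t‖ := by
    have h3 := abs_norm_sub_norm_le (yy e t) 1
    rw [norm_one, norm_yy, norm_sub_rev] at h3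
    exact h3
  have h4 : Real.exp (bb e t) = Real.exp (bb e t / 2) ^ 2 := by
    rw [← Real.exp_nat_mul]
    congr 1
    push_cast
    ring
  have h5 : (Real.exp (bb e t) - 1) ^ 2 * Real.exp (-bb e t) = (2 * Real.sinh (bb e t / 2)) ^ 2 := by
    have h6 : Real.exp (-bb e t) = Real.exp (-(bb e t / 2)) ^ 2 := by
      rw [← Real.exp_nat_mul]
      congr 1
      push_cast
      ring
    have h7 : Real.exp (bb e t / 2) * Real.exp (-(bb e t / 2)) = 1 := by
      rw [← Real.exp_add]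
      simp
    rw [Real.sinh_eq, h6, h4]
    linear_combination (Real.exp (bb e t / 2) ^ 3 * Real.exp (-(bb e t / 2)) +
      Real.exp (bb e t / 2) ^ 2 - 2 * Real.exp (bb e t / 2) * Real.exp (-(bb e t / 2))) * h7
  rw [h1, norm_neg, norm_mul, norm_pow, norm_inv, norm_yy, ← Real.exp_neg]
  calc bb e t ^ 2 ≤ (2 * Real.sinh (bb e t / 2)) ^ 2 := by
        have h8 : |bb e t / 2| ≤ |Real.sinh (bb e t / 2)| := by
          rw [Real.abs_sinh]
          exact Real.self_le_sinh_iff.2 (abs_nonneg _)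
        have h9 := sq_le_sq' (by linarith [abs_nonneg (bb e t / 2), abs_nonneg (Real.sinh (bb e t / 2))]) h8
        rw [sq_abs, sq_abs] at h9
        linarith
    _ = (Real.exp (bb e t) - 1) ^ 2 * Real.exp (-bb e t) := h5.symm
    _ ≤ ‖1 - yy e t‖ ^ 2 * Real.exp (-bb e t) := by
        have := Real.exp_pos (-bb e t)
        rw [← sq_abs (Real.exp (bb e t) - 1)]
        gcongr

/-- the remaining integrand on the loops -/
noncomputable def Ee (n : ℕ) (κ : ℂ) (e t : ℝ) : ℝ :=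
  bb e t * (Complex.log (1 - κ * xx n e t) * lW e t).re

theorem norm_pow_sub_le (n : ℕ) {z : ℂ} (hz : ‖1 - z‖ ≤ 1 / 2) :
    ‖1 - z ^ n‖ ≤ n * 2 ^ n * ‖1 - z‖ := by
  have hz2 : ‖z‖ ≤ 2 := by
    have h := norm_sub_le (1 : ℂ) (1 - z)
    rw [sub_sub_cancel, norm_one] at h
    linarith
  induction n with
  | zero => simp
  | succ n ih =>
    have h1 : 1 - z ^ (n + 1) = (1 - z ^ n) * 1 + z ^ n * (1 - z) := by ring
    have h2 : ‖z ^ n‖ ≤ 2 ^ n := by
      rw [norm_pow]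
      gcongr
    rw [h1, mul_one]
    refine (norm_add_le _ _).trans ?_
    rw [norm_mul]
    have h3 : ‖z ^ n‖ * ‖1 - z‖ ≤ 2 ^ n * ‖1 - z‖ := by gcongr
    have h4 := norm_nonneg (1 - z)
    have h5 : (0 : ℝ) ≤ 2 ^ n * ‖1 - z‖ := by positivity
    have h6 : (0 : ℝ) ≤ n * (2 ^ n * ‖1 - z‖) := by positivity
    push_cast
    rw [pow_succ]
    nlinarith

/-- the logarithm is bounded in terms of the inverse square root -/
theorem norm_log_le {w : ℂ} (h0 : 0 < ‖w‖) (h1 : ‖w‖ ≤ 16) :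
    ‖Complex.log w‖ ≤ 20 + 2 / √‖w‖ := by
  have hs : 0 < √‖w‖ := Real.sqrt_pos.2 h0
  have h2 : ‖Complex.log w‖ ≤ |Real.log ‖w‖| + π := by
    have h3 := Complex.norm_le_abs_re_add_abs_im (Complex.log w)
    rw [Complex.log_re, Complex.log_im] at h3
    have := Complex.abs_arg_le_pi w
    linarith
  have h4 : |Real.log ‖w‖| ≤ 16 + 2 / √‖w‖ := by
    have h7 : 0 < 2 / √‖w‖ := by positivity
    rw [abs_le]
    constructor
    · have h5 := Real.one_sub_inv_le_log_of_pos hs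
      have h6 : Real.log ‖w‖ = 2 * Real.log √‖w‖ := by
        rw [Real.log_sqrt h0.le]
        ring
      rw [h6]
      have h8 : 2 / √‖w‖ = 2 * (√‖w‖)⁻¹ := by rw [div_eq_mul_inv]
      rw [h8]
      linarith
    · have h5 := Real.log_le_sub_one_of_pos h0
      linarith
  have := Real.pi_lt_four
  linarith

theorem norm_zz_le {n : ℕ} (hn : 0 < n) {κ : ℂ} (hκ : κ ^ n = 1) (h0 : 0 < e) (h1 : e ≤ 1 / 2)
    (t : ℝ) : ‖κ * xx n e t‖ ≤ 7 := by
  by_contra h
  rw [not_le] at h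
  have h2 := norm_ww_le h0 h1 t
  rw [← zz_pow hn hκ h0, norm_pow] at h2
  have h3 : ‖κ * xx n e t‖ ≤ ‖κ * xx n e t‖ ^ n :=
    le_self_pow₀ (by linarith) hn.ne'
  linarith

theorem Ee_le {n : ℕ} (hn : 0 < n) {κ : ℂ} (hκ : κ ^ n = 1) (h0 : 0 < e) (h1 : e ≤ 1 / 2)
    (t : ℝ) : |Ee n κ e t| ≤ 3000 * (n + 1) * 4 ^ n := by
  set z := κ * xx n e t with hz
  set b := bb e t with hb
  have hw0 : 0 < ‖ww e t‖ := norm_pos_iff.2 (ww_ne h0 t)
  have hpi := Real.pi_pos
  have hpi4 := Real.pi_lt_four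
  have hn1 : (1 : ℝ) ≤ (n + 1) * 4 ^ n := by
    have h2 : (1 : ℝ) ≤ 4 ^ n := one_le_pow₀ (by norm_num)
    have h3 : (0 : ℝ) ≤ n := Nat.cast_nonneg n
    nlinarith
  have h2 : |Ee n κ e t| ≤ |b| * ‖Complex.log (1 - z)‖ * (72 / ‖ww e t‖) := by
    unfold Ee
    rw [abs_mul, mul_assoc]
    have h3 := Complex.abs_re_le_norm (Complex.log (1 - z) * lW e t)
    rw [norm_mul] at h3
    have h4 : ‖lW e t‖ ≤ 72 / ‖ww e t‖ := by
      unfold lW
      rw [norm_div, norm_mul]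
      have h5 : ‖yy e t - (yy e t)⁻¹‖ ≤ 6 := by
        refine (norm_sub_le _ _).trans ?_
        have := norm_yy_le h0 h1 t
        have := norm_yy_inv_le h0 h1 t
        linarith
      have h6 : ‖ly e t‖ ≤ 12 := (norm_ly_le h0 h1 t).trans (by linarith)
      have h7 : ‖yy e t - (yy e t)⁻¹‖ * ‖ly e t‖ ≤ 6 * 12 := by gcongr
      rw [div_le_div_iff_of_pos_right hw0]
      linarith
    have h5 : ‖Complex.log (1 - z)‖ * ‖lW e t‖ ≤ ‖Complex.log (1 - z)‖ * (72 / ‖ww e t‖) := by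
      gcongr
    have h6 : |b| * |(Complex.log (1 - z) * lW e t).re| ≤
        |b| * (‖Complex.log (1 - z)‖ * (72 / ‖ww e t‖)) :=
      mul_le_mul_of_nonneg_left (h3.trans h5) (abs_nonneg _)
    exact h6
  have hz7 : ‖1 - z‖ ≤ 16 := by
    have h3 := norm_sub_le (1 : ℂ) z
    rw [norm_one] at h3
    have := norm_zz_le hn hκ h0 h1 t
    linarith
  rcases le_or_gt (1 / 4) ‖1 - z‖ with h | h
  · -- away from the point `1`
    have h3 := norm_log_le (by linarith) hz7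
    have h4 : 1 / 2 ≤ √‖1 - z‖ := by
      rw [Real.le_sqrt (by norm_num) (norm_nonneg _)]
      linarith
    have h5 : 2 / √‖1 - z‖ ≤ 4 := by
      rw [div_le_iff₀ (by linarith)]
      linarith
    have h6 : ‖Complex.log (1 - z)‖ ≤ 24 := by linarith
    have h7 := abs_bb_le_ww h0 h1 t
    have h8 : |b| * ‖Complex.log (1 - z)‖ * (72 / ‖ww e t‖) ≤
        (2 * ‖ww e t‖) * 24 * (72 / ‖ww e t‖) := by gcongr
    have h9 : (2 * ‖ww e t‖) * 24 * (72 / ‖ww e t‖) = 3456 := by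
      field_simp
      norm_num
    have h10 : (3456 : ℝ) ≤ 3000 * (n + 1) * 4 ^ n := by
      have h11 : (1 : ℝ) ≤ n := by exact_mod_cast hn
      have h12 : (4 : ℝ) ≤ 4 ^ n := by
        calc (4 : ℝ) = 4 ^ 1 := by norm_num
          _ ≤ 4 ^ n := pow_le_pow_right₀ (by norm_num) hn
      nlinarith
    linarith
  · by_cases hb0 : b = 0
    · have h3 : Ee n κ e t = 0 := by
        unfold Ee
        rw [← hb, hb0, zero_mul]
      rw [h3, abs_zero]
      positivity
    · have h3 : b ^ 2 ≤ n * 2 ^ n * ‖1 - z‖ := by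
        refine (norm_one_sub_ww e t).trans ?_
        rw [← zz_pow hn hκ h0]
        exact norm_pow_sub_le n (by linarith)
      have hbp : 0 < b ^ 2 := by positivity
      have hzp : 0 < ‖1 - z‖ := by
        by_contra h4
        have h5 : ‖1 - z‖ = 0 := le_antisymm (not_lt.1 h4) (norm_nonneg _)
        rw [h5, mul_zero] at h3
        linarith
      have h4 := norm_log_le hzp hz7
      have hsp : 0 < √‖1 - z‖ := Real.sqrt_pos.2 hzp
      have hn2 : (n : ℝ) * 2 ^ n ≤ ((n + 1) * 2 ^ n) ^ 2 := by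
        have h5 : (1 : ℝ) ≤ 2 ^ n := one_le_pow₀ (by norm_num)
        have h6 : (1 : ℝ) ≤ n := by exact_mod_cast hn
        have h7 : (n : ℝ) * 2 ^ n ≤ (n + 1) * 2 ^ n := by nlinarith
        have h8 : (1 : ℝ) ≤ (n + 1) * 2 ^ n := by nlinarith
        nlinarith
      have h5 : |b| ≤ (n + 1) * 2 ^ n * √‖1 - z‖ := by
        refine abs_le_of_sq_le_sq ?_ (by positivity)
        rw [mul_pow, Real.sq_sqrt hzp.le]
        refine h3.trans ?_
        gcongr
      have h6 : |b| * ‖Complex.log (1 - z)‖ ≤ 15 + 2 * ((n + 1) * 2 ^ n) := by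
        have h7 : |b| * ‖Complex.log (1 - z)‖ ≤ |b| * (20 + 2 / √‖1 - z‖) := by gcongr
        have h8 : |b| * (2 / √‖1 - z‖) ≤ (n + 1) * 2 ^ n * √‖1 - z‖ * (2 / √‖1 - z‖) := by gcongr
        have h9 : (n + 1) * 2 ^ n * √‖1 - z‖ * (2 / √‖1 - z‖) = 2 * ((n + 1) * 2 ^ n) := by
          field_simp
        have h10 := bb_le h0 h1 t
        rw [← hb] at h10
        nlinarith
      have h7 : (1 / 2 : ℝ) ^ n ≤ ‖ww e t‖ := by
        rw [← zz_pow hn hκ h0, norm_pow]
        have h8 : 1 / 2 ≤ ‖z‖ := by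
          have h9 := norm_sub_le (1 : ℂ) (1 - z)
          have h10 := norm_sub_norm_le (1 : ℂ) (1 - z)
          rw [sub_sub_cancel, norm_one] at h10
          linarith
        gcongr
      have h8 : 72 / ‖ww e t‖ ≤ 72 * 2 ^ n := by
        rw [div_le_iff₀ hw0]
        have h9 : (1 : ℝ) = 2 ^ n * (1 / 2) ^ n := by
          rw [← mul_pow]
          norm_num
        have h10 : (2 : ℝ) ^ n * (1 / 2) ^ n ≤ 2 ^ n * ‖ww e t‖ := by gcongr
        nlinarith
      have h9 : |b| * ‖Complex.log (1 - z)‖ * (72 / ‖ww e t‖) ≤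
          (15 + 2 * ((n + 1) * 2 ^ n)) * (72 * 2 ^ n) := by gcongr
      refine h2.trans (h9.trans ?_)
      have h10 : (4 : ℝ) ^ n = 2 ^ n * 2 ^ n := by
        rw [← mul_pow]
        norm_num
      rw [h10]
      have h11 : (1 : ℝ) ≤ 2 ^ n := one_le_pow₀ (by norm_num)
      have h12 : (1 : ℝ) ≤ n := by exact_mod_cast hn
      set q := (2 : ℝ) ^ n with hq
      have h13 : q ≤ q * q := by nlinarith
      have h14 : 0 < q * q := by positivity
      have h15 : (15 + 2 * ((n + 1) * q)) * (72 * q) = 1080 * q + 144 * (n + 1) * (q * q) := by ring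
      rw [h15]
      nlinarith

end bounds

end Pool.Agent.P8H1.KC
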