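import Pool.Agent.P8H1.PD.Defs
set_option autoImplicit false

/-!
The curves `y + 1/y - 1 = x^n` and elements of the weight three polylogarithmic complex
`B_3 → B_2 ⊗ A^* → Λ^3 A^*` of their open part `x ≠ 0`, `y ≠ 1`.
-/

namespace Pool.Agent.P8H1.KC

open Pool.Agent.N65.TK (Pt FS br)
open Pool.Agent.P8H1.PD (LP mo)

variable (K : Type*) [Field K] (n : ℕ)

/-- The monomial `x^i y^j z^k`. -/
noncomputable def mono (i j k : ℤ) : (LP K 3)ˣ := mo 1 (![i, j, k] : Fin 3 → ℤ)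

/-- The ideal of the relations `y + 1/y - 1 = x^n` and `z = 1 - y` between the three coordinates
`x, y, z` of the torus. -/
noncomputable def idl : Ideal (LP K 3) := Ideal.span
  {(mono K 0 1 0 : LP K 3) + (mono K 0 (-1) 0 : LP K 3) - 1 - (mono K n 0 0 : LP K 3),
    1 - (mono K 0 1 0 : LP K 3) - (mono K 0 0 1 : LP K 3)}

/-- The coordinate ring of the open part `x ≠ 0`, `y ≠ 1` of the curve `y + 1/y - 1 = x^n`. -/
def Crv : Type _ := LP K 3 ⧸ idl K n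

noncomputable instance : CommRing (Crv K n) := Ideal.Quotient.commRing (idl K n)

/-- The restriction of functions to the curve. -/
noncomputable def proj : LP K 3 →+* Crv K n := Ideal.Quotient.mk (idl K n)

/-- The constants. -/
noncomputable def cst : K →+* Crv K n := (proj K n).comp AddMonoidAlgebra.singleZeroRingHom

variable {K}

/-- The unit `c x^(k_0) y^(k_1) z^(k_2)` on the curve. -/
noncomputable def mn (c : Kˣ) (k : Fin 3 → ℤ) : (Crv K n)ˣ :=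
  Units.map (proj K n : LP K 3 →* Crv K n) (mo c k)

variable (K)

/-- The coordinate `x`. -/
noncomputable def cx : (Crv K n)ˣ := mn n 1 ![1, 0, 0]

/-- The coordinate `y`. -/
noncomputable def cy : (Crv K n)ˣ := mn n 1 ![0, 1, 0]

/-- The coordinate `z = 1 - y`. -/
noncomputable def cz : (Crv K n)ˣ := mn n 1 ![0, 0, 1]

variable {K} {n}

theorem mn_mul (a b : Kˣ) (k l : Fin 3 → ℤ) : mn n (a * b) (k + l) = mn n a k * mn n b l := by
  unfold mn
  rw [← map_mul]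
  congr 1
  ext1
  show AddMonoidAlgebra.single (k + l) ((a * b : Kˣ) : K) =
    AddMonoidAlgebra.single k (a : K) * AddMonoidAlgebra.single l (b : K)
  rw [AddMonoidAlgebra.single_mul_single, Units.val_mul]

theorem mn_one : mn n (1 : Kˣ) 0 = 1 := by
  unfold mn
  rw [← map_one (Units.map (proj K n : LP K 3 →* Crv K n))]
  congr 1

theorem mn_zpow (a : Kˣ) (k : Fin 3 → ℤ) (m : ℤ) : mn n a k ^ m = mn n (a ^ m) (m • k) := by
  induction m using Int.induction_on with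
  | zero => rw [zpow_zero, zpow_zero, zero_smul, mn_one]
  | succ i ih => rw [zpow_add_one, ih, ← mn_mul, zpow_add_one, add_smul, one_smul]
  | pred i ih =>
    have h : mn n a k * mn n a⁻¹ (-k) = 1 := by
      rw [← mn_mul, mul_inv_cancel, add_neg_cancel, mn_one]
    rw [zpow_sub_one, ih, zpow_sub_one, sub_smul, one_smul, sub_eq_add_neg, mn_mul,
      inv_eq_of_mul_eq_one_right h]

/-- The constant `c` as a unit. -/
noncomputable def uc (n : ℕ) (c : Kˣ) : (Crv K n)ˣ := mn n c 0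

theorem mn_eq (c : Kˣ) (i j k : ℤ) :
    mn n c ![i, j, k] = uc n c * cx K n ^ i * cy K n ^ j * cz K n ^ k := by
  unfold uc cx cy cz
  rw [mn_zpow, mn_zpow, mn_zpow, ← mn_mul, ← mn_mul, ← mn_mul]
  congr 1
  · simp
  · funext l
    fin_cases l <;> simp

theorem rel_y : (cy K n : Crv K n) + ((cy K n)⁻¹ : (Crv K n)ˣ) - 1 = (cx K n : Crv K n) ^ n := by
  have h : proj K n ((mono K 0 1 0 : LP K 3) + (mono K 0 (-1) 0 : LP K 3) - 1 -
      (mono K n 0 0 : LP K 3)) = 0 :=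
    Ideal.Quotient.eq_zero_iff_mem.2 (Ideal.subset_span (Or.inl rfl))
  rw [map_sub, sub_eq_zero, map_sub, map_add, map_one] at h
  have h1 : ((cy K n)⁻¹ : (Crv K n)ˣ) = mn n 1 ![0, -1, 0] := by
    rw [mn_eq]
    simp [uc, mn_one]
  have h2 : (cx K n) ^ n = mn n 1 ![(n : ℤ), 0, 0] := by
    rw [mn_eq]
    simp [uc, mn_one]
  rw [h1, ← Units.val_pow_eq_pow_val, h2]
  exact h

theorem rel_z : 1 - (cy K n : Crv K n) = cz K n := by
  have h : proj K n (1 - (mono K 0 1 0 : LP K 3) - (mono K 0 0 1 : LP K 3)) = 0 :=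
    Ideal.Quotient.eq_zero_iff_mem.2 (Ideal.subset_span (Or.inr rfl))
  rw [map_sub, sub_eq_zero, map_sub, map_one] at h
  exact h

theorem uc_pow {c : Kˣ} {m : ℕ} (h : c ^ m = 1) : uc n c ^ m = 1 := by
  unfold uc
  rw [← zpow_natCast, mn_zpow, smul_zero, zpow_natCast, h, mn_one]

theorem uc_val (c : Kˣ) : (uc n c : Crv K n) = cst K n c := rfl

/-- `1 - ε x` is a unit, `ε ^ n = 1`. -/
theorem unit_x {ε : Kˣ} (h : ε ^ n = 1) :
    IsUnit (1 - ((uc n ε * cx K n : (Crv K n)ˣ) : Crv K n)) := by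
  have h1 : (1 : Crv K n) ^ n - ((uc n ε * cx K n : (Crv K n)ˣ) : Crv K n) ^ n =
      -((cy K n)⁻¹ : (Crv K n)ˣ) * (cz K n : Crv K n) ^ 2 := by
    rw [← Units.val_pow_eq_pow_val, mul_pow, uc_pow h, one_mul, Units.val_pow_eq_pow_val,
      ← rel_y, ← rel_z, one_pow]
    have h2 : (cy K n : Crv K n) * ((cy K n)⁻¹ : (Crv K n)ˣ) = 1 := Units.mul_inv _
    linear_combination ((cy K n : Crv K n) - 2) * h2
  have h3 := sub_dvd_pow_sub_pow (1 : Crv K n) ((uc n ε * cx K n : (Crv K n)ˣ) : Crv K n) n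
  refine isUnit_of_dvd_unit h3 ?_
  rw [h1]
  exact (Units.isUnit _).neg.mul ((Units.isUnit _).pow 2)

theorem val_uc_inv (c : Kˣ) : (uc n c⁻¹ : (Crv K n)ˣ) = (uc n c)⁻¹ := by
  have h : uc n c * uc n c⁻¹ = 1 := by
    unfold uc
    rw [← mn_mul, mul_inv_cancel, add_zero, mn_one]
  exact (inv_eq_of_mul_eq_one_right h).symm

theorem uc_add {η : Kˣ} (h : (η : K) + (η⁻¹ : Kˣ) = 1) :
    (uc n η : Crv K n) + (uc n η⁻¹ : (Crv K n)ˣ) = 1 := by
  rw [uc_val, uc_val, ← map_add, h, map_one]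

/-- `(1 - y / η) (1 - y η) = y x^n` -/
theorem prod_y {η : Kˣ} (h : (η : K) + (η⁻¹ : Kˣ) = 1) :
    (1 - ((uc n η⁻¹ * cy K n : (Crv K n)ˣ) : Crv K n)) *
      (1 - ((uc n η * cy K n : (Crv K n)ˣ) : Crv K n)) =
    ((cy K n * cx K n ^ n : (Crv K n)ˣ) : Crv K n) := by
  have h1 := uc_add (n := n) h
  have h2 : (uc n η : Crv K n) * (uc n η⁻¹ : (Crv K n)ˣ) = 1 := by
    rw [val_uc_inv]
    exact Units.mul_inv _
  have h3 : (cy K n : Crv K n) * ((cy K n)⁻¹ : (Crv K n)ˣ) = 1 := Units.mul_inv _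
  push_cast
  rw [← rel_y]
  linear_combination (-(cy K n : Crv K n)) * h1 + (cy K n : Crv K n) ^ 2 * h2 - h3

theorem unit_y1 {η : Kˣ} (h : (η : K) + (η⁻¹ : Kˣ) = 1) :
    IsUnit (1 - ((uc n η⁻¹ * cy K n : (Crv K n)ˣ) : Crv K n)) :=
  isUnit_of_mul_isUnit_left (prod_y (n := n) h ▸ Units.isUnit _)

theorem unit_y2 {η : Kˣ} (h : (η : K) + (η⁻¹ : Kˣ) = 1) :
    IsUnit (1 - (((uc n η * cy K n)⁻¹ : (Crv K n)ˣ) : Crv K n)) := by
  have h1 : IsUnit (1 - ((uc n η * cy K n : (Crv K n)ˣ) : Crv K n)) :=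
    isUnit_of_mul_isUnit_right (prod_y (n := n) h ▸ Units.isUnit _)
  have h2 : 1 - (((uc n η * cy K n)⁻¹ : (Crv K n)ˣ) : Crv K n) =
      -(((uc n η * cy K n)⁻¹ : (Crv K n)ˣ) : Crv K n) *
        (1 - ((uc n η * cy K n : (Crv K n)ˣ) : Crv K n)) := by
    have h3 : (((uc n η * cy K n)⁻¹ : (Crv K n)ˣ) : Crv K n) *
        ((uc n η * cy K n : (Crv K n)ˣ) : Crv K n) = 1 := Units.inv_mul _
    linear_combination -h3
  rw [h2]
  exact (Units.isUnit _).neg.mul h1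

/-- The function `ε x`, `ε ^ n = 1`. -/
noncomputable def ptx {ε : Kˣ} (h : ε ^ n = 1) : Pt (Crv K n) := ⟨uc n ε * cx K n, unit_x h⟩

/-- The function `y / η`, where `η + 1/η = 1`. -/
noncomputable def pty {η : Kˣ} (h : (η : K) + (η⁻¹ : Kˣ) = 1) : Pt (Crv K n) :=
  ⟨uc n η⁻¹ * cy K n, unit_y1 h⟩

/-- The function `1 / (η y)`, where `η + 1/η = 1`. -/
noncomputable def ptw {η : Kˣ} (h : (η : K) + (η⁻¹ : Kˣ) = 1) : Pt (Crv K n) :=
  ⟨(uc n η * cy K n)⁻¹, unit_y2 h⟩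

/-- The element `({y / η}_2 - {1 / (η y)}_2) ⊗ (1 - ε x) - n {ε x}_2 ⊗ y`, where `ε ^ n = 1` and
`η + 1/η = 1`. -/
noncomputable def xi {ε η : Kˣ} (hε : ε ^ n = 1) (hη : (η : K) + (η⁻¹ : Kˣ) = 1) :
    FS (Crv K n) :=
  br (pty hη) (ptx hε).co - br (ptw hη) (ptx hε).co - (n : ℚ) • br (ptx hε) (cy K n)

end Pool.Agent.P8H1.KC
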