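import Pool.Agent.P8H1.KC.Prim
set_option autoImplicit false

/-!
The regulator of `xi` on the loops: an exact formula, and its limit.
-/

namespace Pool.Agent.P8H1.KC

open Real Set Filter Topology MeasureTheory
open Pool.Agent.N65.TK (Pt Path FS br D D_of_mem Li_im not_mem_S1 D_of_mem_S2)
open Pool.Agent.W367.KT (Li S1 D1 hd_im S2 hasDerivAt_Li isOpen_S1)

section basic

/-- the logarithmic derivative of `y` -/
noncomputable def ly (e t : ℝ) : ℂ := ((2 * π * e * Real.cos (2 * π * t) : ℝ) : ℂ) +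
  ((2 * π : ℝ) : ℂ) * Complex.I

/-- the logarithmic derivative of `w` -/
noncomputable def lW (e t : ℝ) : ℂ := (yy e t - (yy e t)⁻¹) * ly e t / ww e t

theorem hd_bb (e t : ℝ) : HasDerivAt (bb e) (2 * π * e * Real.cos (2 * π * t)) t := by
  unfold bb
  have h1 : HasDerivAt (fun s : ℝ => 2 * π * s) (2 * π * 1) t := (hasDerivAt_id t).const_mul _
  have h2 := ((h1.sin).add_const (1 / 2 : ℝ)).const_mul e
  refine h2.congr_deriv ?_
  ring

theorem hd_yy (e t : ℝ) : HasDerivAt (yy e) (yy e t * ly e t) t := by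
  have h1 : HasDerivAt (fun s => (bb e s : ℂ)) ((2 * π * e * Real.cos (2 * π * t) : ℝ) : ℂ) t :=
    (hd_bb e t).ofReal_comp
  have h2 : HasDerivAt (fun s : ℝ => ((2 * π * s : ℝ) : ℂ) * Complex.I)
      (((2 * π : ℝ) : ℂ) * Complex.I) t := by
    have h3 : HasDerivAt (fun s : ℝ => 2 * π * s) (2 * π * 1) t := (hasDerivAt_id t).const_mul _
    rw [mul_one] at h3
    exact h3.ofReal_comp.mul_const _
  exact (h1.add h2).cexp

theorem hd_ww (e t : ℝ) : HasDerivAt (ww e) ((yy e t - (yy e t)⁻¹) * ly e t) t := by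
  unfold ww
  have h := ((hd_yy e t).add ((hd_yy e t).inv (yy_ne e t))).sub_const 1
  refine h.congr_deriv ?_
  have := yy_ne e t
  field_simp
  ring

theorem hd_xx (n : ℕ) {e : ℝ} (he : 0 < e) (t : ℝ) :
    HasDerivAt (xx n e) (xx n e t * (lW e t / n)) t := by
  have h1 : HasDerivAt (lw e) (lW e t) t := by
    unfold lw
    have h2 := (((hd_ww e t).const_mul (-Complex.I)).clog_real (slit he t)).add_const
      ((π / 2 : ℂ) * Complex.I)
    refine h2.congr_deriv ?_
    unfold lW
    have := ww_ne he t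
    have hI := Complex.I_ne_zero
    field_simp
  exact (h1.div_const _).cexp

theorem norm_yy (e t : ℝ) : ‖yy e t‖ = Real.exp (bb e t) := by
  unfold yy
  rw [Complex.norm_exp]
  simp

theorem D_conj {z : ℂ} (hz : z.im ≠ 0) : D ((starRingEnd ℂ) z) = -D z := by
  unfold D
  have h1 : ∀ t : ℝ, t ≠ 0 → Complex.arg (1 - t * (starRingEnd ℂ) z) =
      -Complex.arg (1 - t * z) := by
    intro t ht
    have h2 : (1 : ℂ) - t * (starRingEnd ℂ) z = (starRingEnd ℂ) (1 - t * z) := by
      rw [map_sub, map_one, map_mul, Complex.conj_ofReal]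
    rw [h2, Complex.arg_conj, if_neg]
    intro h3
    rw [Complex.arg_eq_pi_iff] at h3
    have h4 := h3.2
    simp only [Complex.sub_im, Complex.one_im, Complex.mul_im, Complex.ofReal_re, Complex.ofReal_im,
      zero_mul, add_zero, zero_sub, neg_eq_zero, mul_eq_zero] at h4
    rcases h4 with h4 | h4
    · exact ht h4
    · exact hz h4
  have h5 : (∫ t in (0 : ℝ)..1, Complex.arg (1 - t * (starRingEnd ℂ) z) / t) =
      -∫ t in (0 : ℝ)..1, Complex.arg (1 - t * z) / t := by
    rw [← intervalIntegral.integral_neg]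
    refine intervalIntegral.integral_congr_ae (Eventually.of_forall fun t ht => ?_)
    rw [uIoc_of_le zero_le_one] at ht
    rw [h1 t ht.1.ne', neg_div]
  have h6 := h1 1 one_ne_zero
  rw [Complex.ofReal_one, one_mul, one_mul] at h6
  rw [h5, h6, Complex.norm_conj]
  ring

theorem D_inv {z : ℂ} (hz : z.im ≠ 0) : D z⁻¹ = -D z := by
  have h0 : z ≠ 0 := fun h => hz (by rw [h, Complex.zero_im])
  have h2 : z ∈ S2 := by
    refine ⟨h0, ?_⟩
    show 1 - z⁻¹ ∈ Complex.slitPlane
    right
    rw [Complex.sub_im, Complex.one_im, Complex.inv_im, zero_sub, neg_ne_zero]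
    exact div_ne_zero (neg_ne_zero.2 hz) (Complex.normSq_pos.2 h0).ne'
  rw [D_of_mem_S2 h2, neg_neg]

/-- bound for the imaginary part of the dilogarithm -/
theorem Li_im_le {z : ℂ} (hz : z ∈ S1) : |(Li z).im| ≤ 2 * π * ‖z‖ := by
  by_cases h0 : z = 0
  · subst h0
    have : Li 0 = 0 := by
      unfold Li
      simp
    rw [this]
    simp
  · rw [Li_im h0 hz, abs_neg]
    have h1 : ∀ t ∈ Ioc (0 : ℝ) 1, ‖Complex.arg (1 - t * z) / t‖ ≤ 2 * π * ‖z‖ := by
      intro t ht
      rw [norm_div, Real.norm_of_nonneg ht.1.le, div_le_iff₀ ht.1]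
      rcases le_or_gt (t * ‖z‖) (1 / 2) with h | h
      · have h2 : ‖-(t * z : ℂ)‖ ≤ 1 / 2 := by
          rw [norm_neg, norm_mul, Complex.norm_real, Real.norm_of_nonneg ht.1.le]
          exact h
        have h3 : ‖Complex.log (1 + -(t * z : ℂ))‖ ≤ 3 / 2 * ‖-(t * z : ℂ)‖ :=
          Complex.norm_log_one_add_half_le_self h2
        rw [← sub_eq_add_neg, norm_neg, norm_mul, Complex.norm_real,
          Real.norm_of_nonneg ht.1.le] at h3
        have h4 : |Complex.arg (1 - t * z)| ≤ ‖Complex.log (1 - t * z)‖ := by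
          rw [← Complex.log_im]
          exact Complex.abs_im_le_norm _
        have h5 : 3 / 2 * (t * ‖z‖) ≤ 2 * π * (t * ‖z‖) := by
          have := Real.pi_gt_three
          have h6 : 0 ≤ t * ‖z‖ := mul_nonneg ht.1.le (norm_nonneg _)
          nlinarith
        rw [Real.norm_eq_abs]
        calc |Complex.arg (1 - t * z)| ≤ 3 / 2 * (t * ‖z‖) := h4.trans h3
          _ ≤ 2 * π * (t * ‖z‖) := h5
          _ = 2 * π * ‖z‖ * t := by ring
      · rw [Real.norm_eq_abs]
        have h2 := Complex.abs_arg_le_pi (1 - t * z)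
        have := Real.pi_pos
        nlinarith
    have h2 := intervalIntegral.norm_integral_le_of_norm_le_const (a := 0) (b := 1)
      (f := fun t : ℝ => Complex.arg (1 - t * z) / t) (C := 2 * π * ‖z‖) fun t ht => by
        rw [uIoc_of_le zero_le_one] at ht
        exact h1 t ht
    rw [sub_zero, abs_one, mul_one] at h2
    exact h2

theorem int_of_bdd {f : ℝ → ℝ} {C : ℝ} (hf : ContinuousOn f (Ioo 0 1))
    (hb : ∀ t ∈ Ioo (0 : ℝ) 1, |f t| ≤ C) : IntervalIntegrable f volume 0 1 := by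
  rw [intervalIntegrable_iff_integrableOn_Ioo_of_le zero_le_one]
  refine Integrable.mono' (g := fun _ => C) ?_ (hf.aestronglyMeasurable measurableSet_Ioo) ?_
  · exact integrable_const C
  · rw [ae_restrict_iff' measurableSet_Ioo]
    exact Eventually.of_forall fun t ht => hb t ht

end basic

section slitplane

variable {n : ℕ} {κ : ℂ}

/-- a point whose `n`-th power is not a real number greater than or equal to `1` is not on the cut -/
theorem mem_S1_of {z w : ℂ} (hz : z ^ n = w) (h : w.im ≠ 0 ∨ w.re < 1) : z ∈ S1 := by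
  by_contra hS
  obtain ⟨h1, h2⟩ := not_mem_S1 hS
  rw [h1, ← Complex.ofReal_pow] at hz
  rcases h with h | h
  · rw [← hz, Complex.ofReal_im] at h
    exact h rfl
  · rw [← hz, Complex.ofReal_re] at h
    exact absurd (one_le_pow₀ h2) (not_le.2 h)

theorem ww_cut {e : ℝ} (he : 0 < e) {t : ℝ} (ht : t ∈ Ioo (0 : ℝ) 1) :
    (ww e t).im ≠ 0 ∨ (ww e t).re < 1 := by
  by_contra hcon
  rw [not_or, not_not, not_lt] at hcon
  obtain ⟨h1, h2⟩ := hcon
  rw [ww_im] at h1
  rw [ww_re] at h2
  have hs := Real.sin_sq_add_cos_sq (2 * π * t)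
  rcases mul_eq_zero.1 h1 with h3 | h3
  · have h4 : bb e t = 0 := by
      have h5 : Real.sinh (bb e t) = 0 := by linarith
      exact Real.sinh_eq_zero.1 h5
    rw [h4, Real.cosh_zero] at h2
    have h5 : Real.cos (2 * π * t) = 1 := le_antisymm (Real.cos_le_one _) (by linarith)
    have h6 : Real.sin (2 * π * t) = 0 := by
      rw [h5] at hs
      nlinarith
    unfold bb at h4
    rw [h6] at h4
    have : e * (0 + 1 / 2) ≠ 0 := by positivity
    exact this h4
  · rw [Real.sin_eq_zero_iff] at h3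
    obtain ⟨k, hk⟩ := h3
    have hpi := Real.pi_pos
    have h4 : (k : ℝ) = 2 * t := by
      have : π * ((k : ℝ) - 2 * t) = 0 := by linarith
      have := (mul_eq_zero.1 this).resolve_left hpi.ne'
      linarith
    have h5 : k = 1 := by
      have h6 : (0 : ℝ) < k := by rw [h4]; linarith [ht.1]
      have h7 : (k : ℝ) < 2 := by rw [h4]; linarith [ht.2]
      have h6' : 0 < k := by exact_mod_cast h6
      have h7' : k < 2 := by exact_mod_cast h7
      omega
    rw [h5, Int.cast_one] at hk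
    rw [← hk, one_mul, Real.cos_pi] at h2
    have := Real.one_le_cosh (bb e t)
    linarith

theorem zz_pow (hn : 0 < n) (hκ : κ ^ n = 1) {e : ℝ} (he : 0 < e) (t : ℝ) :
    (κ * xx n e t) ^ n = ww e t := by
  rw [mul_pow, hκ, one_mul, xx_pow hn he]

theorem zz_mem (hn : 0 < n) (hκ : κ ^ n = 1) {e : ℝ} (he : 0 < e) {t : ℝ}
    (ht : t ∈ Ioo (0 : ℝ) 1) : κ * xx n e t ∈ S1 :=
  mem_S1_of (zz_pow hn hκ he t) (ww_cut he ht)

end slitplane

end Pool.Agent.P8H1.KC
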