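import Pool.Agent.P8H1.KC.Defs
import Pool.Agent.N65.TK.Rel
set_option autoImplicit false

/-!
The loops on the curve.
-/

namespace Pool.Agent.P8H1.KC

open Real Set Filter Topology
open Pool.Agent.N65.TK (Pt Path)
open Pool.Agent.P8H1.PD (LP mo)

section eval

variable {K : Type*} [Field K] (σ : K →+* ℂ)

/-- `k ↦ X^k` -/
noncomputable def chr (X : Fin 3 → ℂˣ) : Multiplicative (Fin 3 → ℤ) →* ℂ where
  toFun k := ((∏ l, X l ^ (k.toAdd l) : ℂˣ) : ℂ)
  map_one' := by simp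
  map_mul' k k' := by
    rw [← Units.val_mul, ← Finset.prod_mul_distrib]
    congr 1
    refine Finset.prod_congr rfl fun l _ => ?_
    rw [← zpow_add]
    rfl

/-- The value at the point `X`. -/
noncomputable def ev (X : Fin 3 → ℂˣ) : LP K 3 →+* ℂ :=
  AddMonoidAlgebra.liftNCRingHom σ (chr X) fun _ _ => mul_comm _ _

theorem ev_single (X : Fin 3 → ℂˣ) (k : Fin 3 → ℤ) (a : K) :
    ev σ X (AddMonoidAlgebra.single k a) = σ a * ((∏ l, X l ^ (k l) : ℂˣ) : ℂ) :=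
  AddMonoidAlgebra.liftNCRingHom_single _ _ _ _ _

theorem ev_mo (X : Fin 3 → ℂˣ) (a : Kˣ) (k : Fin 3 → ℤ) :
    ev σ X (mo a k : LP K 3) = σ a * ((∏ l, X l ^ (k l) : ℂˣ) : ℂ) :=
  ev_single σ X k a

theorem ev_mono (X : Fin 3 → ℂˣ) (i j k : ℤ) :
    ev σ X (mono K i j k : LP K 3) = ((X 0 ^ i * X 1 ^ j * X 2 ^ k : ℂˣ) : ℂ) := by
  unfold mono
  rw [ev_mo, Fin.prod_univ_three]
  simp

theorem ev_eq (X : Fin 3 → ℂˣ) (P : LP K 3) :
    ev σ X P = ∑ k ∈ P.coeff.support, σ (P.coeff k) * ((∏ l, X l ^ (k l) : ℂˣ) : ℂ) := by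
  conv_lhs => rw [← AddMonoidAlgebra.sum_coeff_single P]
  unfold Finsupp.sum
  rw [map_sum]
  simp only [ev_single]

theorem ev_zero {n : ℕ} {X : Fin 3 → ℂˣ} (h1 : (X 1 : ℂ) + (X 1 : ℂ)⁻¹ - 1 = (X 0 : ℂ) ^ n)
    (h2 : 1 - (X 1 : ℂ) = X 2) (P : LP K 3) (hP : P ∈ idl K n) : ev σ X P = 0 := by
  have h : idl K n ≤ RingHom.ker (ev σ X) := by
    unfold idl
    rw [Ideal.span_le]
    rintro Q (rfl | rfl)
    · show ev σ X _ = 0
      rw [map_sub, map_sub, map_add, map_one, ev_mono, ev_mono, ev_mono]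
      simp only [zpow_zero, one_mul, mul_one, zpow_one, zpow_neg, zpow_natCast,
        Units.val_inv_eq_inv_val, Units.val_pow_eq_pow_val]
      rw [h1, sub_self]
    · show ev σ X _ = 0
      rw [map_sub, map_sub, map_one, ev_mono, ev_mono]
      simp only [zpow_zero, one_mul, mul_one, zpow_one]
      rw [h2, sub_self]
  exact h hP

theorem zpow_smooth {f : ℝ → ℂˣ} (hf : ContDiff ℝ 2 fun t => (f t : ℂ)) (m : ℤ) :
    ContDiff ℝ 2 fun t => ((f t ^ m : ℂˣ) : ℂ) := by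
  obtain ⟨k, rfl | rfl⟩ := m.eq_nat_or_neg
  · simp only [zpow_natCast, Units.val_pow_eq_pow_val]
    exact hf.pow k
  · simp only [zpow_neg, zpow_natCast, Units.val_inv_eq_inv_val, Units.val_pow_eq_pow_val]
    exact (hf.pow k).inv fun t => pow_ne_zero k (f t).ne_zero

theorem ev_smooth {X : ℝ → Fin 3 → ℂˣ} (hs : ∀ l, ContDiff ℝ 2 fun t => (X t l : ℂ))
    (P : LP K 3) : ContDiff ℝ 2 fun t => ev σ (X t) P := by
  simp only [ev_eq]
  refine ContDiff.sum fun k _ => contDiff_const.mul ?_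
  simp only [Units.coe_prod]
  exact contDiff_prod fun l _ => zpow_smooth (hs l) (k l)

/-- The closed path given by the coordinates. -/
noncomputable def mkPath {n : ℕ} (X : ℝ → Fin 3 → ℂˣ) (h1 : ∀ t, (X t 1 : ℂ) + (X t 1 : ℂ)⁻¹ - 1 =
    (X t 0 : ℂ) ^ n) (h2 : ∀ t, 1 - (X t 1 : ℂ) = X t 2) (hs : ∀ l, ContDiff ℝ 2 fun t => (X t l : ℂ))
    (hp : ∀ t, X (t + 1) = X t) : Path (Crv K n) where
  e t := Ideal.Quotient.lift (idl K n) (ev σ (X t)) (ev_zero σ (h1 t) (h2 t))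
  smooth h := by
    obtain ⟨P, rfl⟩ := Ideal.Quotient.mk_surjective h
    exact ev_smooth σ hs P
  periodic t := by
    have h := hp t
    simp only [h] <;> rfl

theorem mkPath_mn {n : ℕ} (X : ℝ → Fin 3 → ℂˣ) (h1 : ∀ t, (X t 1 : ℂ) + (X t 1 : ℂ)⁻¹ - 1 =
    (X t 0 : ℂ) ^ n) (h2 : ∀ t, 1 - (X t 1 : ℂ) = X t 2) (hs : ∀ l, ContDiff ℝ 2 fun t => (X t l : ℂ))
    (hp : ∀ t, X (t + 1) = X t) (t : ℝ) (c : Kˣ) (k : Fin 3 → ℤ) :
    (mkPath σ X h1 h2 hs hp).e t (mn n c k) = σ c * ((∏ l, X t l ^ (k l) : ℂˣ) : ℂ) :=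
  ev_mo σ (X t) c k

theorem mkPath_cst {n : ℕ} (X : ℝ → Fin 3 → ℂˣ) (h1 : ∀ t, (X t 1 : ℂ) + (X t 1 : ℂ)⁻¹ - 1 =
    (X t 0 : ℂ) ^ n) (h2 : ∀ t, 1 - (X t 1 : ℂ) = X t 2) (hs : ∀ l, ContDiff ℝ 2 fun t => (X t l : ℂ))
    (hp : ∀ t, X (t + 1) = X t) (t : ℝ) (a : K) :
    (mkPath σ X h1 h2 hs hp).e t (cst K n a) = σ a := by
  have h := ev_single σ (X t) 0 a
  simp only [Pi.zero_apply, zpow_zero, Finset.prod_const_one, Units.val_one, mul_one] at h
  exact h

end eval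

section coordinates

/-- the logarithm of `|y|` -/
noncomputable def bb (ε t : ℝ) : ℝ := ε * (Real.sin (2 * π * t) + 1 / 2)

/-- the coordinate `y` -/
noncomputable def yy (ε t : ℝ) : ℂ := Complex.exp ((bb ε t : ℂ) + ((2 * π * t : ℝ) : ℂ) * Complex.I)

/-- `x^n` -/
noncomputable def ww (ε t : ℝ) : ℂ := yy ε t + (yy ε t)⁻¹ - 1

/-- a logarithm of `x^n` -/
noncomputable def lw (ε t : ℝ) : ℂ := Complex.log (-Complex.I * ww ε t) + (π / 2 : ℂ) * Complex.I

/-- the coordinate `x` -/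
noncomputable def xx (n : ℕ) (ε t : ℝ) : ℂ := Complex.exp (lw ε t / n)

theorem yy_ne (ε t : ℝ) : yy ε t ≠ 0 := Complex.exp_ne_zero _

theorem xx_ne (n : ℕ) (ε t : ℝ) : xx n ε t ≠ 0 := Complex.exp_ne_zero _

theorem yy_re (ε t : ℝ) : (yy ε t).re = Real.exp (bb ε t) * Real.cos (2 * π * t) := by
  unfold yy
  rw [Complex.exp_re]
  simp

theorem yy_im (ε t : ℝ) : (yy ε t).im = Real.exp (bb ε t) * Real.sin (2 * π * t) := by
  unfold yy
  rw [Complex.exp_im]
  simp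

theorem yy_inv (ε t : ℝ) : (yy ε t)⁻¹ =
    Complex.exp (-(bb ε t : ℂ) + ((-(2 * π * t) : ℝ) : ℂ) * Complex.I) := by
  unfold yy
  rw [← Complex.exp_neg]
  congr 1
  push_cast
  ring

theorem yy_inv_re (ε t : ℝ) : ((yy ε t)⁻¹).re = Real.exp (-bb ε t) * Real.cos (2 * π * t) := by
  rw [yy_inv, Complex.exp_re]
  simp

theorem yy_inv_im (ε t : ℝ) : ((yy ε t)⁻¹).im = -(Real.exp (-bb ε t) * Real.sin (2 * π * t)) := by
  rw [yy_inv, Complex.exp_im]
  simp

theorem ww_re (ε t : ℝ) : (ww ε t).re = 2 * Real.cosh (bb ε t) * Real.cos (2 * π * t) - 1 := by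
  unfold ww
  rw [Complex.sub_re, Complex.add_re, yy_re, yy_inv_re, Complex.one_re, Real.cosh_eq]
  ring

theorem ww_im (ε t : ℝ) : (ww ε t).im = 2 * Real.sinh (bb ε t) * Real.sin (2 * π * t) := by
  unfold ww
  rw [Complex.sub_im, Complex.add_im, yy_im, yy_inv_im, Complex.one_im, Real.sinh_eq]
  ring

/-- `w` is in the open upper half plane or not purely imaginary -/
theorem ww_slit {ε : ℝ} (hε : 0 < ε) (t : ℝ) : 0 < (ww ε t).im ∨ (ww ε t).re ≠ 0 := by
  rw [ww_re, ww_im]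
  set s := Real.sin (2 * π * t) with hs
  set c := Real.cos (2 * π * t) with hc
  have h1 : s ^ 2 + c ^ 2 = 1 := Real.sin_sq_add_cos_sq _
  have hch : 1 ≤ Real.cosh (bb ε t) := Real.one_le_cosh _
  rcases lt_or_ge 0 s with h | h
  · left
    have hb : 0 < bb ε t := by
      unfold bb
      rw [← hs]
      positivity
    have := Real.sinh_pos_iff.2 hb
    positivity
  · rcases lt_or_ge s (-1 / 2) with h2 | h2
    · left
      have hb : bb ε t < 0 := by
        unfold bb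
        rw [← hs]
        exact mul_neg_of_pos_of_neg hε (by linarith)
      have := Real.sinh_neg_iff.2 hb
      nlinarith
    · right
      have h3 : 3 / 4 ≤ c ^ 2 := by nlinarith
      intro h4
      have h5 : 2 * Real.cosh (bb ε t) * c = 1 := by linarith
      have h6 : 0 < c := by
        by_contra h7
        rw [not_lt] at h7
        nlinarith
      nlinarith

theorem slit {ε : ℝ} (hε : 0 < ε) (t : ℝ) : -Complex.I * ww ε t ∈ Complex.slitPlane := by
  rw [Complex.mem_slitPlane_iff]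
  rcases ww_slit hε t with h | h
  · left
    simpa using h
  · right
    simpa using h

theorem ww_ne {ε : ℝ} (hε : 0 < ε) (t : ℝ) : ww ε t ≠ 0 := by
  intro h
  have := Complex.slitPlane_ne_zero (slit hε t)
  rw [h, mul_zero] at this
  exact this rfl

theorem exp_lw {ε : ℝ} (hε : 0 < ε) (t : ℝ) : Complex.exp (lw ε t) = ww ε t := by
  unfold lw
  rw [Complex.exp_add, Complex.exp_log (Complex.slitPlane_ne_zero (slit hε t)),
    Complex.exp_pi_div_two_mul_I]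
  linear_combination (-ww ε t) * Complex.I_sq

theorem xx_pow {n : ℕ} (hn : 0 < n) {ε : ℝ} (hε : 0 < ε) (t : ℝ) : xx n ε t ^ n = ww ε t := by
  unfold xx
  rw [← Complex.exp_nat_mul, mul_div_cancel₀ _ (by exact_mod_cast hn.ne'), exp_lw hε]

theorem bb_smooth (ε : ℝ) : ContDiff ℝ 2 (bb ε) := by
  unfold bb
  exact contDiff_const.mul (((contDiff_const.mul contDiff_id).sin).add contDiff_const)

theorem yy_smooth (ε : ℝ) : ContDiff ℝ 2 (yy ε) := by
  unfold yy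
  have h1 : ContDiff ℝ 2 fun t => (bb ε t : ℂ) := Complex.ofRealCLM.contDiff.comp (bb_smooth ε)
  have h2 : ContDiff ℝ 2 fun t : ℝ => ((2 * π * t : ℝ) : ℂ) :=
    Complex.ofRealCLM.contDiff.comp (contDiff_const.mul contDiff_id)
  exact (h1.add (h2.mul contDiff_const)).cexp

theorem ww_smooth (ε : ℝ) : ContDiff ℝ 2 (ww ε) :=
  ((yy_smooth ε).add ((yy_smooth ε).inv fun t => yy_ne ε t)).sub contDiff_const

theorem lw_smooth {ε : ℝ} (hε : 0 < ε) : ContDiff ℝ 2 (lw ε) := by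
  unfold lw
  refine ContDiff.add ?_ contDiff_const
  have h1 : ContDiff ℝ 2 fun t => -Complex.I * ww ε t := contDiff_const.mul (ww_smooth ε)
  rw [contDiff_iff_contDiffAt] at h1 ⊢
  intro t
  have h2 : ContDiffAt ℝ 2 Complex.log (-Complex.I * ww ε t) :=
    (Complex.contDiffAt_log (slit hε t)).restrict_scalars ℝ
  exact h2.comp t (h1 t)

theorem xx_smooth (n : ℕ) {ε : ℝ} (hε : 0 < ε) : ContDiff ℝ 2 (xx n ε) := by
  unfold xx
  exact ((lw_smooth hε).div_const _).cexp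

theorem bb_per (ε t : ℝ) : bb ε (t + 1) = bb ε t := by
  unfold bb
  rw [mul_add (2 * π) t 1, mul_one, Real.sin_add_two_pi]

theorem yy_per (ε t : ℝ) : yy ε (t + 1) = yy ε t := by
  apply Complex.ext
  · rw [yy_re, yy_re, bb_per, mul_add (2 * π) t 1, mul_one, Real.cos_add_two_pi]
  · rw [yy_im, yy_im, bb_per, mul_add (2 * π) t 1, mul_one, Real.sin_add_two_pi]

theorem ww_per (ε t : ℝ) : ww ε (t + 1) = ww ε t := by
  unfold ww
  rw [yy_per]

theorem xx_per (n : ℕ) (ε t : ℝ) : xx n ε (t + 1) = xx n ε t := by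
  unfold xx lw
  rw [ww_per]

theorem yy_ne_one {ε : ℝ} (hε : 0 < ε) (t : ℝ) : yy ε t ≠ 1 := by
  intro h
  have h1 := congrArg Complex.re h
  have h2 := congrArg Complex.im h
  rw [yy_re, Complex.one_re] at h1
  rw [yy_im, Complex.one_im] at h2
  have h3 : Real.sin (2 * π * t) = 0 := (mul_eq_zero.1 h2).resolve_left (Real.exp_pos _).ne'
  have h4 : bb ε t = ε / 2 := by
    unfold bb
    rw [h3]
    ring
  have h5 : 1 < Real.exp (bb ε t) := by
    rw [h4]
    exact Real.one_lt_exp_iff.2 (by positivity)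
  have h6 : Real.cos (2 * π * t) ^ 2 = 1 := by
    have := Real.sin_sq_add_cos_sq (2 * π * t)
    rw [h3] at this
    linarith
  have h7 : Real.exp (bb ε t) ^ 2 = 1 := by
    have := congrArg (· ^ 2) h1
    simp only [mul_pow, h6, mul_one, one_pow] at this
    exact this
  nlinarith

end coordinates

section path

variable {K : Type*} [Field K] {n : ℕ} (σ : K →+* ℂ)

/-- the coordinates of the loop -/
noncomputable def crd {ε : ℝ} (hε : 0 < ε) (n : ℕ) (ρ : ℂˣ) (t : ℝ) : Fin 3 → ℂˣ :=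
  ![ρ * Units.mk0 (xx n ε t) (xx_ne n ε t), Units.mk0 (yy ε t) (yy_ne ε t),
    Units.mk0 (1 - yy ε t) (sub_ne_zero.2 (yy_ne_one hε t).symm)]

/-- The loop. -/
noncomputable def pth (hn : 0 < n) {ε : ℝ} (hε : 0 < ε) {ρ : ℂˣ} (hρ : ρ ^ n = 1) :
    Path (Crv K n) :=
  mkPath σ (crd hε n ρ)
    (fun t => by
      show yy ε t + (yy ε t)⁻¹ - 1 = ((ρ * Units.mk0 (xx n ε t) (xx_ne n ε t) : ℂˣ) : ℂ) ^ n
      rw [← Units.val_pow_eq_pow_val, mul_pow, hρ, one_mul, Units.val_pow_eq_pow_val, Units.val_mk0,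
        xx_pow hn hε]
      rfl)
    (fun t => rfl)
    (fun l => by
      fin_cases l
      · exact contDiff_const.mul (xx_smooth n hε)
      · exact yy_smooth ε
      · exact contDiff_const.sub (yy_smooth ε))
    (fun t => by
      unfold crd
      congr 1
      · congr 1
        ext
        exact xx_per n ε t
      · congr 1
        · ext
          exact yy_per ε t
        · congr 1
          ext
          show 1 - yy ε (t + 1) = 1 - yy ε t
          rw [yy_per])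

variable (hn : 0 < n) {ε : ℝ} (hε : 0 < ε) {ρ : ℂˣ} (hρ : ρ ^ n = 1)

theorem pth_cst (t : ℝ) (a : K) : (pth σ hn hε hρ).e t (cst K n a) = σ a :=
  mkPath_cst σ _ _ _ _ _ t a

theorem pth_mn (t : ℝ) (c : Kˣ) (i j k : ℤ) :
    (pth σ hn hε hρ).e t (mn n c ![i, j, k]) =
      σ c * ((ρ : ℂ) * xx n ε t) ^ i * yy ε t ^ j * (1 - yy ε t) ^ k := by
  rw [pth, mkPath_mn, Fin.prod_univ_three]
  simp only [crd, Matrix.cons_val_zero, Matrix.cons_val_one, Matrix.cons_val_two, Matrix.head_cons,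
    Matrix.tail_cons, Units.val_mul, Units.val_zpow_eq_zpow_val, Units.val_mk0]
  ring

theorem pth_y (t : ℝ) : (pth σ hn hε hρ).e t (cy K n) = yy ε t := by
  unfold cy
  rw [pth_mn]
  simp

theorem pth_ptx {e : Kˣ} (he : e ^ n = 1) (t : ℝ) :
    (pth σ hn hε hρ).e t (ptx he).1 = σ e * ρ * xx n ε t := by
  have h : (ptx he).1 = mn n e ![1, 0, 0] := by
    rw [mn_eq]
    simp [ptx]
  rw [h, pth_mn]
  simp
  ring

theorem pth_pty {η : Kˣ} (hη : (η : K) + (η⁻¹ : Kˣ) = 1) (t : ℝ) :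
    (pth σ hn hε hρ).e t (pty (n := n) hη).1 = (σ η)⁻¹ * yy ε t := by
  have h : (pty (n := n) hη).1 = mn n η⁻¹ ![0, 1, 0] := by
    rw [mn_eq]
    simp [pty]
  rw [h, pth_mn]
  simp

theorem pth_ptw {η : Kˣ} (hη : (η : K) + (η⁻¹ : Kˣ) = 1) (t : ℝ) :
    (pth σ hn hε hρ).e t (ptw (n := n) hη).1 = (σ η * yy ε t)⁻¹ := by
  have h : (ptw (n := n) hη).1 = mn n η⁻¹ ![0, -1, 0] := by
    rw [mn_eq]
    simp [ptw, val_uc_inv, mul_comm]
  rw [h, pth_mn]
  simp
  ring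

end path

end Pool.Agent.P8H1.KC
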