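import Pool.Agent.P8H1.KC.Four
set_option autoImplicit false

/-!
The Fourier coefficients of the limit of the regulator do not vanish.
-/

namespace Pool.Agent.P8H1.KC

open Real Set Filter Topology MeasureTheory
open Pool.Agent.N65.TK (Pt Path FS br D D_of_mem Li_im not_mem_S1)
open Pool.Agent.W367.KT (Li S1 D1 hd_im S2 hasDerivAt_Li isOpen_S1 star_S1)

section points

variable {n : ℕ} (hn : 0 < n) {t : ℝ}

theorem ww_zero_eq (t : ℝ) : ww 0 t = ((ww 0 t).re : ℂ) := Complex.ext rfl (by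
  rw [ww_zero_im, Complex.ofReal_im])

theorem xx_pos_case (n : ℕ) (h : 0 < (ww 0 t).re) :
    xx n 0 t = ((Real.exp (Real.log (ww 0 t).re / n) : ℝ) : ℂ) := by
  have h1 : -Complex.I * ww 0 t = (((ww 0 t).re : ℝ) : ℂ) * (-Complex.I) := by
    rw [ww_zero_eq t]
    simp [mul_comm]
  unfold xx lw
  rw [h1, Complex.log_ofReal_mul h (neg_ne_zero.2 Complex.I_ne_zero), Complex.log_neg_I]
  push_cast
  congr 1
  ring

theorem xx_neg_case (n : ℕ) (h : (ww 0 t).re < 0) :
    xx n 0 t = ((Real.exp (Real.log (-(ww 0 t).re) / n) : ℝ) : ℂ) *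
      Complex.exp ((π / n : ℝ) * Complex.I) := by
  have h1 : -Complex.I * ww 0 t = ((-(ww 0 t).re : ℝ) : ℂ) * Complex.I := by
    rw [ww_zero_eq t]
    simp [mul_comm]
  unfold xx lw
  rw [h1, Complex.log_ofReal_mul (by linarith) Complex.I_ne_zero, Complex.log_I]
  push_cast
  rw [← Complex.exp_add]
  congr 1
  ring

end points

section sums

variable {n : ℕ}

/-- the real part of the distribution relation, for positive real `z` -/
theorem im_real (n k a : ℕ) (s r : ℝ) :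
    ((n : ℂ) * (s : ℂ) ^ k * (r : ℂ) ^ a / (1 - ((s : ℂ) * r) ^ n)).im = 0 := by
  have h : ((n : ℂ) * (s : ℂ) ^ k * (r : ℂ) ^ a / (1 - ((s : ℂ) * r) ^ n)) =
      ((n * s ^ k * r ^ a / (1 - (s * r) ^ n) : ℝ) : ℂ) := by
    push_cast
    rfl
  rw [h, Complex.ofReal_im]

/-- a root of `-1` -/
noncomputable def om (n : ℕ) : ℂ := Complex.exp ((π / n : ℝ) * Complex.I)

theorem om_pow (hn : 0 < n) : om n ^ n = -1 := by
  unfold om
  rw [← Complex.exp_nat_mul]
  have h1 : (n : ℂ) * (((π / n : ℝ) : ℂ) * Complex.I) = π * Complex.I := by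
    push_cast
    have : (n : ℂ) ≠ 0 := by exact_mod_cast hn.ne'
    field_simp
  rw [h1, Complex.exp_pi_mul_I]

theorem om_pow_im (n a : ℕ) : (om n ^ a).im = Real.sin (a * (π / n)) := by
  unfold om
  rw [← Complex.exp_nat_mul]
  have h1 : (a : ℂ) * (((π / n : ℝ) : ℂ) * Complex.I) = ((a * (π / n) : ℝ) : ℂ) * Complex.I := by
    push_cast
    ring
  rw [h1, Complex.exp_ofReal_mul_I_im]

/-- the real part of the distribution relation, for `z ^ n < 0` -/
theorem im_om (hn : 0 < n) (k a : ℕ) (s r : ℝ) :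
    ((n : ℂ) * (s : ℂ) ^ k * ((r : ℂ) * om n) ^ a / (1 - ((s : ℂ) * ((r : ℂ) * om n)) ^ n)).im =
      n * s ^ k * r ^ a / (1 + (s * r) ^ n) * Real.sin (a * (π / n)) := by
  have h1 : ((s : ℂ) * ((r : ℂ) * om n)) ^ n = -((s : ℂ) * r) ^ n := by
    rw [← mul_assoc, mul_pow _ (om n), om_pow hn]
    ring
  have h : ((n : ℂ) * (s : ℂ) ^ k * ((r : ℂ) * om n) ^ a / (1 - ((s : ℂ) * ((r : ℂ) * om n)) ^ n)) =
      ((n * s ^ k * r ^ a / (1 + (s * r) ^ n) : ℝ) : ℂ) * om n ^ a := by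
    rw [h1]
    push_cast
    rw [mul_pow]
    ring
  rw [h, Complex.im_ofReal_mul, om_pow_im]

theorem sin_pos' {a : ℕ} (h1 : 1 ≤ a) (h2 : a < n) : 0 < Real.sin (a * (π / n)) := by
  have hn : (0 : ℝ) < n := by
    have : 0 < n := by omega
    exact_mod_cast this
  have hpi := Real.pi_pos
  apply Real.sin_pos_of_pos_of_lt_pi
  · have : (0 : ℝ) < a := by exact_mod_cast h1
    positivity
  · have h3 : (a : ℝ) < n := by exact_mod_cast h2
    have h4 : (a : ℝ) * (π / n) = π * (a / n) := by ring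
    rw [h4]
    have h5 : (a : ℝ) / n < 1 := (div_lt_one hn).2 h3
    nlinarith

theorem int_pos (hn : 0 < n) {a : ℕ} (h1 : 1 ≤ a) (h2 : a < n) {r : ℝ} (hr : 0 < r) :
    0 < -∫ s in (0 : ℝ)..1, Real.log s *
      (((n * (s : ℂ) ^ (a - 1) * ((r : ℂ) * om n) ^ a / (1 - (s * ((r : ℂ) * om n)) ^ n)).im +
        (n * (s : ℂ) ^ (n - a - 1) * ((r : ℂ) * om n) ^ (n - a) /
          (1 - (s * ((r : ℂ) * om n)) ^ n)).im) / 2) := by
  simp only [im_om hn]
  rw [← intervalIntegral.integral_neg]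
  have hs1 := sin_pos' h1 h2
  have hs2 : 0 < Real.sin (((n - a : ℕ) : ℝ) * (π / n)) := sin_pos' (by omega) (by omega)
  have hn' : (0 : ℝ) < n := by exact_mod_cast hn
  have hd : ∀ s : ℝ, 0 ≤ s → 0 < 1 + (s * r) ^ n := fun s hs => by positivity
  have hcont : ContinuousOn (fun s : ℝ => (n * s ^ (a - 1) * r ^ a / (1 + (s * r) ^ n) *
      Real.sin (a * (π / n)) + n * s ^ (n - a - 1) * r ^ (n - a) / (1 + (s * r) ^ n) *
      Real.sin (((n - a : ℕ) : ℝ) * (π / n))) / 2) (Icc 0 1) := by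
    intro s hs
    have h3 := (hd s hs.1).ne'
    apply ContinuousAt.continuousWithinAt
    have h4 : ContinuousAt (fun s : ℝ => 1 + (s * r) ^ n) s := by fun_prop
    have h5 : ∀ k l : ℕ, ContinuousAt (fun s : ℝ => n * s ^ k * r ^ l / (1 + (s * r) ^ n)) s :=
      fun k l => ContinuousAt.div₀ (by fun_prop) h4 h3
    exact (((h5 _ _).mul continuousAt_const).add ((h5 _ _).mul continuousAt_const)).div_const _
  refine intervalIntegral.intervalIntegral_pos_of_pos_on ?_ ?_ zero_lt_one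
  · refine IntervalIntegrable.neg ?_
    refine (intervalIntegral.intervalIntegrable_log').mul_continuousOn ?_
    rw [uIcc_of_le zero_le_one]
    exact hcont
  · intro s hs
    have h3 : Real.log s < 0 := Real.log_neg hs.1 hs.2
    have h4 := hd s hs.1.le
    have h5 := hs.1
    rw [← neg_mul]
    apply mul_pos (neg_pos.2 h3)
    positivity

end sums

section limit

variable {n : ℕ} {ζ : ℂ} (hζ : IsPrimitiveRoot ζ n) {a : ℕ} (h1 : 1 ≤ a) (h2 : a < n)

include hζ h1 h2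

/-- the sum of the limits of the integrands -/
theorem sum_sign {t : ℝ} (ht : t ∈ Ioo (0 : ℝ) 1) (h : ww 0 t ≠ 0) :
    0 ≤ ∑ m ∈ Finset.range n, cf ζ a m * (Li (ζ ^ m * xx n 0 t)).im ∧
    ((ww 0 t).re < 0 → 0 < ∑ m ∈ Finset.range n, cf ζ a m * (Li (ζ ^ m * xx n 0 t)).im) := by
  have hn : 0 < n := by omega
  have hκ : ∀ m, (ζ ^ m) ^ n = 1 := fun m => by
    rw [← pow_mul, mul_comm, pow_mul, hζ.pow_eq_one, one_pow]
  have hre := ww_zero_lt ht
  have hw : ∀ s ∈ Ioo (0 : ℝ) 1, ((s : ℂ) * xx n 0 t) ^ n ≠ 1 := by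
    intro s hs h3
    rw [mul_pow, xx_pow_zero hn h, ww_zero_eq t] at h3
    have h4 : s ^ n * (ww 0 t).re = 1 := by exact_mod_cast h3
    have h5 : s ^ n ≤ 1 := pow_le_one₀ hs.1.le hs.2.le
    have h6 : 0 < s ^ n := pow_pos hs.1 n
    nlinarith
  have e := sum_Li hζ h1 h2 (xx_ne n 0 t) (fun m => zz_mem_zero hn (hκ m) ht h) hw
  rw [e]
  rcases lt_trichotomy (ww 0 t).re 0 with h3 | h3 | h3
  · have h4 := int_pos hn h1 h2 (Real.exp_pos (Real.log (-(ww 0 t).re) / n))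
    have h5 := xx_neg_case n h3
    change _ = _ * om n at h5
    rw [h5]
    exact ⟨h4.le, fun _ => h4⟩
  · exact absurd (Complex.ext h3 (ww_zero_im t)) h
  · refine ⟨?_, fun h4 => absurd h4 (not_lt.2 h3.le)⟩
    rw [xx_pos_case n h3]
    simp only [im_real]
    simp

end limit

section integrable

variable {n : ℕ} (hn : 0 < n) {κ : ℂ} (hκ : κ ^ n = 1)

include hn hκ

theorem lim_Li {t : ℝ} (ht : t ∈ Ioo (0 : ℝ) 1) (h : ww 0 t ≠ 0) :
    Tendsto (fun e => (Li (κ * xx n e t)).im * (2 * π)) (𝓝[>] 0)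
      (𝓝 ((Li (κ * xx n 0 t)).im * (2 * π))) := by
  have h2 : ContinuousAt (fun e => κ * xx n e t) 0 := continuousAt_const.mul (lim_xx n h)
  have h3 := (hasDerivAt_Li (zz_mem_zero hn hκ ht h)).continuousAt
  have h4 : ContinuousAt (fun e => Li (κ * xx n e t)) 0 := ContinuousAt.comp (g := Li) h3 h2
  have h5 : ContinuousAt (fun e => (Li (κ * xx n e t)).im * (2 * π)) 0 :=
    (Complex.continuous_im.continuousAt.comp h4).mul continuousAt_const
  exact h5.tendsto.mono_left nhdsWithin_le_nhds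

theorem int_Li_zero : IntervalIntegrable (fun t => (Li (κ * xx n 0 t)).im * (2 * π)) volume 0 1 := by
  have hseq : Tendsto (fun k : ℕ => 1 / ((k : ℝ) + 1) / 2) atTop (𝓝[>] 0) := by
    rw [tendsto_nhdsWithin_iff]
    constructor
    · have := (tendsto_one_div_add_atTop_nhds_zero_nat (𝕜 := ℝ)).div_const 2
      rwa [zero_div] at this
    · exact Eventually.of_forall fun k => by
        show 0 < 1 / ((k : ℝ) + 1) / 2
        positivity
  have hk : ∀ k : ℕ, 0 < 1 / ((k : ℝ) + 1) / 2 ∧ 1 / ((k : ℝ) + 1) / 2 ≤ 1 / 2 := by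
    intro k
    refine ⟨by positivity, ?_⟩
    have h1 : 1 / ((k : ℝ) + 1) ≤ 1 := by
      rw [div_le_one (by positivity)]
      have : (0 : ℝ) ≤ k := Nat.cast_nonneg k
      linarith
    linarith
  rw [intervalIntegrable_iff_integrableOn_Ioc_of_le zero_le_one]
  have hae : ∀ᵐ t ∂(volume.restrict (Ioc (0 : ℝ) 1)), t ∈ Ioo (0 : ℝ) 1 ∧ ww 0 t ≠ 0 := by
    rw [ae_restrict_iff' measurableSet_Ioc]
    filter_upwards [ae_good] with t ht ht2
    exact ⟨⟨ht2.1, lt_of_le_of_ne ht2.2 ht.2⟩, ht.1⟩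
  have hmeas : AEStronglyMeasurable (fun t => (Li (κ * xx n 0 t)).im * (2 * π))
      (volume.restrict (Ioc (0 : ℝ) 1)) := by
    refine aestronglyMeasurable_of_tendsto_ae atTop
      (f := fun (k : ℕ) t => (Li (κ * xx n (1 / ((k : ℝ) + 1) / 2) t)).im * (2 * π)) ?_ ?_
    · intro k
      exact (int_Li hn hκ (hk k).1 (hk k).2).aestronglyMeasurable
    · filter_upwards [hae] with t ht
      exact (lim_Li hn hκ ht.1 ht.2).comp hseq
  refine Integrable.mono' (g := fun _ => (1000 : ℝ)) (integrable_const _) hmeas ?_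
  filter_upwards [hae] with t ht
  refine le_of_tendsto ((lim_Li hn hκ ht.1 ht.2).comp hseq).norm
    (Eventually.of_forall fun k => ?_)
  exact Li_bdd hn hκ (hk k).1 (hk k).2 t ht.1

end integrable

section main

variable {n : ℕ} {ζ : ℂ} (hζ : IsPrimitiveRoot ζ n) {a : ℕ} (h1 : 1 ≤ a) (h2 : a < n)

include hζ h1 h2

theorem limit_neg : ∑ m ∈ Finset.range n, cf ζ a m *
    (-(n * ∫ t in (0 : ℝ)..1, (Li (ζ ^ m * xx n 0 t)).im * (2 * π))) < 0 := by
  have hn : 0 < n := by omega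
  have hn' : (0 : ℝ) < n := by exact_mod_cast hn
  have hpi := Real.pi_pos
  have hκ : ∀ m, (ζ ^ m) ^ n = 1 := fun m => by
    rw [← pow_mul, mul_comm, pow_mul, hζ.pow_eq_one, one_pow]
  set h : ℝ → ℝ := fun t => ∑ m ∈ Finset.range n, cf ζ a m * ((Li (ζ ^ m * xx n 0 t)).im * (2 * π))
    with hh
  have hint : IntervalIntegrable h volume 0 1 := by
    have h3 : ∀ m ∈ Finset.range n, IntervalIntegrable
        (fun t => cf ζ a m * ((Li (ζ ^ m * xx n 0 t)).im * (2 * π))) volume 0 1 :=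
      fun m _ => (int_Li_zero hn (hκ m)).const_mul _
    have h4 := IntervalIntegrable.sum (Finset.range n) h3
    refine h4.congr fun t _ => ?_
    rw [hh, Finset.sum_apply]
  have e1 : ∑ m ∈ Finset.range n, cf ζ a m *
      (-(n * ∫ t in (0 : ℝ)..1, (Li (ζ ^ m * xx n 0 t)).im * (2 * π))) =
      -(n * ∫ t in (0 : ℝ)..1, h t) := by
    rw [hh, intervalIntegral.integral_finsetSum fun m _ => (int_Li_zero hn (hκ m)).const_mul _,
      Finset.mul_sum, ← Finset.sum_neg_distrib]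
    refine Finset.sum_congr rfl fun m _ => ?_
    rw [intervalIntegral.integral_const_mul]
    ring
  have hval : ∀ t, h t = (∑ m ∈ Finset.range n, cf ζ a m * (Li (ζ ^ m * xx n 0 t)).im) * (2 * π) := by
    intro t
    rw [hh, Finset.sum_mul]
    refine Finset.sum_congr rfl fun m _ => ?_
    ring
  have hpos : 0 < ∫ t in (0 : ℝ)..1, h t := by
    have h3 : 0 < ∫ t in (1 / 4 : ℝ)..(1 / 2), h t := by
      refine intervalIntegral.intervalIntegral_pos_of_pos_on (hint.mono_set ?_) ?_ (by norm_num)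
      · rw [uIcc_of_le (by norm_num), uIcc_of_le (by norm_num)]
        exact Icc_subset_Icc (by norm_num) (by norm_num)
      · intro t ht
        have hre : (ww 0 t).re < 0 := by
          rw [ww_zero_re]
          have h4 : Real.cos (2 * π * t) < 0 := by
            apply Real.cos_neg_of_pi_div_two_lt_of_lt
            · nlinarith [ht.1]
            · nlinarith [ht.2]
          linarith
        have h5 := (sum_sign hζ h1 h2 ⟨by linarith [ht.1], by linarith [ht.2]⟩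
          (fun h6 => by rw [h6, Complex.zero_re] at hre; exact lt_irrefl _ hre)).2 hre
        rw [hval]
        positivity
    refine h3.trans_le (intervalIntegral.integral_mono_interval (by norm_num) (by norm_num)
      (by norm_num) ?_ hint)
    rw [EventuallyLE, ae_restrict_iff' measurableSet_Ioc]
    filter_upwards [ae_good] with t ht ht2
    rw [hval]
    have h5 := (sum_sign hζ h1 h2 ⟨ht2.1, lt_of_le_of_ne ht2.2 ht.2⟩ ht.1).1
    show 0 ≤ _
    positivity
  rw [e1]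
  have : 0 < (n : ℝ) * ∫ t in (0 : ℝ)..1, h t := mul_pos hn' hpos
  linarith

end main

section exist

variable {n : ℕ} {ζ : ℂ} (hζ : IsPrimitiveRoot ζ n)

include hζ

/-- for small `e` the Fourier coefficients do not vanish -/
theorem exists_e (hn : 0 < n) : ∃ e : ℝ, 0 < e ∧ e ≤ 1 / 2 ∧ ∀ a ∈ Finset.Ico 1 n,
    ∑ m ∈ Finset.range n, cf ζ a m * rg n (ζ ^ m) e ≠ 0 := by
  have hκ : ∀ m, (ζ ^ m) ^ n = 1 := fun m => by
    rw [← pow_mul, mul_comm, pow_mul, hζ.pow_eq_one, one_pow]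
  have h1 : ∀ᶠ e : ℝ in 𝓝[>] 0, ∀ a ∈ Finset.Ico 1 n,
      ∑ m ∈ Finset.range n, cf ζ a m * rg n (ζ ^ m) e ≠ 0 := by
    rw [Filter.eventually_all_finset]
    intro a ha
    rw [Finset.mem_Ico] at ha
    have h2 : Tendsto (fun e => ∑ m ∈ Finset.range n, cf ζ a m * rg n (ζ ^ m) e) (𝓝[>] 0)
        (𝓝 (∑ m ∈ Finset.range n, cf ζ a m *
          (-(n * ∫ t in (0 : ℝ)..1, (Li (ζ ^ m * xx n 0 t)).im * (2 * π))))) :=
      tendsto_finsetSum _ fun m _ => (tendsto_rg hn (hκ m)).const_mul _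
    exact h2.eventually_ne (limit_neg hζ ha.1 ha.2).ne
  have h2 : ∀ᶠ e : ℝ in 𝓝[>] 0, e ≤ 1 / 2 :=
    nhdsWithin_le_nhds (Iic_mem_nhds (by norm_num : (0 : ℝ) < 1 / 2))
  have h6 : ∀ᶠ e : ℝ in 𝓝[>] 0, e ∈ Ioi (0 : ℝ) := self_mem_nhdsWithin
  obtain ⟨e, ⟨h3, h4⟩, h5⟩ := ((h1.and h2).and h6).exists
  exact ⟨e, h5, h4, h3⟩

end exist

end Pool.Agent.P8H1.KC
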