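import Pool.Agent.P8H1.KC.Alg
import Pool.Agent.P8H1.KC.Path
set_option autoImplicit false

/-!
A primitive of the regulator form of `xi`.
-/

namespace Pool.Agent.N65.TK

section pathlemmas

variable {A : Type*} [CommRing A] (γ : Path A)

theorem Path.ln_one (t : ℝ) : γ.ln 1 t = 0 := by
  unfold Path.ln
  rw [Units.val_one, map_one, norm_one, Real.log_one]

theorem Path.ld_one (t : ℝ) : γ.ld 1 t = 0 := by
  have h := γ.ld_mul 1 1 t
  rw [one_mul] at h
  linear_combination -h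

theorem Path.ln_inv (f : Aˣ) (t : ℝ) : γ.ln f⁻¹ t = -γ.ln f t := by
  have h := γ.ln_mul f f⁻¹ t
  rw [mul_inv_cancel, γ.ln_one] at h
  linarith

theorem Path.ld_inv (f : Aˣ) (t : ℝ) : γ.ld f⁻¹ t = -γ.ld f t := by
  have h := γ.ld_mul f f⁻¹ t
  rw [mul_inv_cancel, γ.ld_one] at h
  linear_combination -h

theorem Path.ln_pow (f : Aˣ) (m : ℕ) (t : ℝ) : γ.ln (f ^ m) t = m * γ.ln f t := by
  induction m with
  | zero => rw [pow_zero, γ.ln_one, Nat.cast_zero, zero_mul]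
  | succ m ih =>
    rw [pow_succ, γ.ln_mul, ih]
    push_cast
    ring

theorem Path.ld_pow (f : Aˣ) (m : ℕ) (t : ℝ) : γ.ld (f ^ m) t = m * γ.ld f t := by
  induction m with
  | zero => rw [pow_zero, γ.ld_one, Nat.cast_zero, zero_mul]
  | succ m ih =>
    rw [pow_succ, γ.ld_mul, ih]
    push_cast
    ring

theorem Path.ln_tors {f : Aˣ} {m : ℕ} (hm : 0 < m) (h : f ^ m = 1) (t : ℝ) : γ.ln f t = 0 := by
  have h1 := γ.ln_pow f m t
  rw [h, γ.ln_one] at h1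
  have hm' : (m : ℝ) ≠ 0 := by exact_mod_cast hm.ne'
  exact (mul_eq_zero.1 h1.symm).resolve_left hm'

theorem Path.ld_tors {f : Aˣ} {m : ℕ} (hm : 0 < m) (h : f ^ m = 1) (t : ℝ) : γ.ld f t = 0 := by
  have h1 := γ.ld_pow f m t
  rw [h, γ.ld_one] at h1
  have hm' : (m : ℂ) ≠ 0 := by exact_mod_cast hm.ne'
  exact (mul_eq_zero.1 h1.symm).resolve_left hm'

theorem Path.hasDerivAt_ln (f : Aˣ) (t : ℝ) : HasDerivAt (γ.ln f) (γ.ld f t).re t :=
  Pool.Agent.W367.KT.hasDerivAt_logNorm (γ.hd f t) (γ.ne_zero f t)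

theorem Path.hasDerivAt_D (f : Pt A) (t : ℝ) : HasDerivAt (fun s => D (γ.e s f.1))
    (γ.ln f.1 t * (γ.ld f.co t).im - γ.ln f.co t * (γ.ld f.1 t).im) t := by
  have h := Pool.Agent.N65.TK.hasDerivAt_D (γ.hd f.1 t) (γ.ne_zero f.1 t) (γ.ne_one f t)
  refine h.congr_deriv ?_
  unfold Pool.Agent.W367.KT.eta
  rw [γ.ld_co]
  unfold Path.ln Path.ld
  rw [γ.co]

end pathlemmas

end Pool.Agent.N65.TK

namespace Pool.Agent.P8H1.KC

open Real Set Filter Topology MeasureTheory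
open Pool.Agent.N65.TK (Pt Path FS br D D_of_mem)
open Pool.Agent.W367.KT (Li S1 D1 hd_im)

variable {K : Type*} [Field K] {n : ℕ} {ε η : Kˣ}

section general

variable (hn : 0 < n) (hε : ε ^ n = 1) (hη : (η : K) + (η⁻¹ : Kˣ) = 1) (γ : Path (Crv K n)) (t : ℝ)

include hη in
theorem ln_pty : γ.ln (pty (n := n) hη).1 t = γ.ln (cy K n) t := by
  show γ.ln (uc n η⁻¹ * cy K n) t = _
  have h6 : (η⁻¹) ^ 6 = 1 := by rw [inv_pow, eta_pow hη, inv_one]
  rw [γ.ln_mul, γ.ln_tors (by norm_num) (uc_pow h6), zero_add]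

include hη in
theorem ld_pty : γ.ld (pty (n := n) hη).1 t = γ.ld (cy K n) t := by
  show γ.ld (uc n η⁻¹ * cy K n) t = _
  have h6 : (η⁻¹) ^ 6 = 1 := by rw [inv_pow, eta_pow hη, inv_one]
  rw [γ.ld_mul, γ.ld_tors (by norm_num) (uc_pow h6), zero_add]

include hη in
theorem ln_ptw : γ.ln (ptw (n := n) hη).1 t = -γ.ln (cy K n) t := by
  show γ.ln (uc n η * cy K n)⁻¹ t = _
  rw [γ.ln_inv, γ.ln_mul, γ.ln_tors (by norm_num) (uc_pow (eta_pow hη)), zero_add]

include hη in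
theorem ld_ptw : γ.ld (ptw (n := n) hη).1 t = -γ.ld (cy K n) t := by
  show γ.ld (uc n η * cy K n)⁻¹ t = _
  rw [γ.ld_inv, γ.ld_mul, γ.ld_tors (by norm_num) (uc_pow (eta_pow hη)), zero_add]

include hn in
theorem ln_ptx : γ.ln (ptx hε).1 t = γ.ln (cx K n) t := by
  show γ.ln (uc n ε * cx K n) t = _
  rw [γ.ln_mul, γ.ln_tors hn (uc_pow hε), zero_add]

include hn in
theorem ld_ptx : γ.ld (ptx hε).1 t = γ.ld (cx K n) t := by
  show γ.ld (uc n ε * cx K n) t = _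
  rw [γ.ld_mul, γ.ld_tors hn (uc_pow hε), zero_add]

theorem tors_co : (-(uc n η⁻¹) : (Crv K n)ˣ) ^ 6 = (uc n η⁻¹) ^ 6 := Even.neg_pow (by decide) _

theorem ln_co : γ.ln (pty (n := n) hη).co t + γ.ln (ptw (n := n) hη).co t =
    n * γ.ln (cx K n) t := by
  have h6 : (η⁻¹) ^ 6 = 1 := by rw [inv_pow, eta_pow hη, inv_one]
  rw [← γ.ln_mul, co_mul, γ.ln_mul, γ.ln_pow,
    γ.ln_tors (f := -(uc n η⁻¹)) (m := 6) (by norm_num) (tors_co.trans (uc_pow h6)), zero_add]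

theorem ld_co : γ.ld (pty (n := n) hη).co t + γ.ld (ptw (n := n) hη).co t =
    n * γ.ld (cx K n) t := by
  have h6 : (η⁻¹) ^ 6 = 1 := by rw [inv_pow, eta_pow hη, inv_one]
  rw [← γ.ld_mul, co_mul, γ.ld_mul, γ.ld_pow,
    γ.ld_tors (f := -(uc n η⁻¹)) (m := 6) (by norm_num) (tors_co.trans (uc_pow h6)), zero_add]

/-- the difference of the values of `D` -/
noncomputable def BB (t : ℝ) : ℝ := D (γ.e t (pty (n := n) hη).1) - D (γ.e t (ptw (n := n) hη).1)

theorem hasDerivAt_BB : HasDerivAt (BB hη γ) (γ.ln (cy K n) t * (n * γ.ld (cx K n) t).im -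
    n * γ.ln (cx K n) t * (γ.ld (cy K n) t).im) t := by
  refine ((γ.hasDerivAt_D (pty (n := n) hη) t).sub (γ.hasDerivAt_D (ptw (n := n) hη) t)).congr_deriv ?_
  rw [ln_pty, ld_pty, ln_ptw, ld_ptw, ← ln_co hη γ t, ← ld_co hη γ t, Complex.neg_im, Complex.add_im]
  ring

/-- the value of the function `ε x` -/
noncomputable def zt (t : ℝ) : ℂ := γ.e t (ptx hε).1

/-- the integrand of the regulator of `xi` -/
noncomputable def Jt (t : ℝ) : ℝ := γ.fr (pty hη) (ptx hε).co t - γ.fr (ptw hη) (ptx hε).co t -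
  n * γ.fr (ptx hε) (cy K n) t

include hn in
theorem Jt_eq : Jt hε hη γ t = BB hη γ t * (γ.ld (ptx hε).co t).im -
    n * (D (zt hε γ t) * (γ.ld (cy K n) t).im) +
    1 / 3 * (2 * (γ.ln (ptx hε).co t * γ.ln (cy K n) t * (n * γ.ld (cx K n) t).re) -
      γ.ln (ptx hε).co t * (n * γ.ln (cx K n) t) * (γ.ld (cy K n) t).re -
      γ.ln (cy K n) t * (n * γ.ln (cx K n) t) * (γ.ld (ptx hε).co t).re) := by
  unfold Jt Path.fr BB zt
  rw [ln_pty, ld_pty, ln_ptw, ld_ptw, ln_ptx hn, ld_ptx hn, ← ln_co hη γ t]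
  have h1 : (n * γ.ld (cx K n) t).re = (γ.ld (pty (n := n) hη).co t).re +
      (γ.ld (ptw (n := n) hη).co t).re := by
    rw [← ld_co hη γ t, Complex.add_re]
  have h2 : (n * γ.ld (cx K n) t).re = n * (γ.ld (cx K n) t).re := by
    simp
  rw [Complex.neg_re]
  linear_combination (-(1/3) * γ.ln (ptx hε).co t * γ.ln (cy K n) t) * h1 -
    (1 / 3 * γ.ln (cy K n) t * γ.ln (ptx hε).co t) * h2 +
    (1 / 3 * γ.ln (cy K n) t * (γ.ld (ptx hε).co t).re) * (ln_co hη γ t)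

/-- the primitive -/
noncomputable def Psi (t : ℝ) : ℝ :=
  -(1 / 3) * (γ.ln (ptx hε).co t * γ.ln (cy K n) t * (n * γ.ln (cx K n) t)) +
    BB hη γ t * (Complex.log (1 - zt hε γ t)).im

/-- the remaining integrand -/
noncomputable def Er (t : ℝ) : ℝ :=
  γ.ln (cy K n) t * (Complex.log (1 - zt hε γ t) * (n * γ.ld (cx K n) t)).re

include hn in
theorem hasDerivAt_Psi (hz : 1 - zt hε γ t ∈ Complex.slitPlane) :
    HasDerivAt (Psi hε hη γ) (Jt hε hη γ t + n * ((Li (zt hε γ t)).im * (γ.ld (cy K n) t).im) -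
      Er hε γ t) t := by
  have h1 := γ.hasDerivAt_ln (ptx hε).co t
  have h2 := γ.hasDerivAt_ln (cy K n) t
  have h3 := γ.hasDerivAt_ln (cx K n) t
  have h4 := hasDerivAt_BB hη γ t
  have h5 : HasDerivAt (fun s => (Complex.log (1 - zt hε γ s)).im) (γ.ld (ptx hε).co t).im t := by
    have h6 : HasDerivAt (fun s => 1 - zt hε γ s) (-deriv (fun s => γ.e s (ptx hε).1) t) t :=
      (γ.hd (ptx hε).1 t).const_sub 1
    have h7 := hd_im (h6.clog_real hz)
    rw [γ.ld_co]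
    exact h7
  have h8 := (((h1.mul h2).mul (h3.const_mul (n : ℝ))).const_mul (-(1 / 3) : ℝ)).add (h4.mul h5)
  refine h8.congr_deriv ?_
  have hD : D (zt hε γ t) = (Li (zt hε γ t)).im +
      (Complex.log (1 - zt hε γ t)).im * γ.ln (cx K n) t := by
    rw [D_of_mem (z := zt hε γ t) hz, ← ln_ptx hn hε γ t]
    rfl
  have hlog : (Complex.log (1 - zt hε γ t)).re = γ.ln (ptx hε).co t := by
    rw [Complex.log_re]
    unfold Path.ln zt
    rw [γ.co]
  have e1 : (n * γ.ld (cx K n) t).re = n * (γ.ld (cx K n) t).re := by simp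
  have e2 : (n * γ.ld (cx K n) t).im = n * (γ.ld (cx K n) t).im := by simp
  have e3 : Er hε γ t = γ.ln (cy K n) t * (γ.ln (ptx hε).co t * (n * γ.ld (cx K n) t).re -
      (Complex.log (1 - zt hε γ t)).im * (n * γ.ld (cx K n) t).im) := by
    unfold Er
    rw [Complex.mul_re (Complex.log (1 - zt hε γ t)), hlog]
  rw [Jt_eq hn, hD, e3, e1, e2]
  simp only [Pi.mul_apply]
  ring

theorem reg_xi : γ.reg (xi hε hη) = ∫ t in (0 : ℝ)..1, Jt hε hη γ t := by
  have i1 := γ.int_fr (pty (n := n) hη) (ptx hε).co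
  have i2 := γ.int_fr (ptw (n := n) hη) (ptx hε).co
  have i3 := (γ.int_fr (ptx hε) (cy K n)).const_mul (n : ℝ)
  unfold xi
  rw [map_sub, map_sub, map_smul, γ.reg_br, γ.reg_br, γ.reg_br, ← intervalIntegral.integral_sub i1 i2]
  have h : ((n : ℚ) • ∫ t in (0 : ℝ)..1, γ.fr (ptx hε) (cy K n) t) =
      ∫ t in (0 : ℝ)..1, n * γ.fr (ptx hε) (cy K n) t := by
    rw [intervalIntegral.integral_const_mul, Rat.smul_def]
    simp
  rw [h, ← intervalIntegral.integral_sub (i1.sub i2) i3]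
  rfl

theorem cont_Jt : Continuous (Jt hε hη γ) := by
  unfold Jt
  exact ((γ.cont_fr _ _).sub (γ.cont_fr _ _)).sub (continuous_const.mul (γ.cont_fr _ _))

include hn in
theorem reg_eq {c : ℝ} (hz : ∀ t ∈ Ioo (0 : ℝ) 1, 1 - zt hε γ t ∈ Complex.slitPlane)
    (h0 : Tendsto (Psi hε hη γ) (𝓝[>] 0) (𝓝 c)) (h1 : Tendsto (Psi hε hη γ) (𝓝[<] 1) (𝓝 c))
    (i1 : IntervalIntegrable (fun t => (Li (zt hε γ t)).im * (γ.ld (cy K n) t).im) volume 0 1)
    (i2 : IntervalIntegrable (Er hε γ) volume 0 1) :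
    γ.reg (xi hε hη) = -(n * ∫ t in (0 : ℝ)..1, (Li (zt hε γ t)).im * (γ.ld (cy K n) t).im) +
      ∫ t in (0 : ℝ)..1, Er hε γ t := by
  have i0 : IntervalIntegrable (Jt hε hη γ) volume 0 1 := (cont_Jt hε hη γ).intervalIntegrable _ _
  have h2 := intervalIntegral.integral_eq_sub_of_hasDerivAt_of_tendsto zero_lt_one
    (fun t ht => hasDerivAt_Psi hn hε hη γ t (hz t ht)) ((i0.add (i1.const_mul (n : ℝ))).sub i2) h0 h1
  rw [sub_self, intervalIntegral.integral_sub (i0.add (i1.const_mul (n : ℝ))) i2,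
    intervalIntegral.integral_add i0 (i1.const_mul (n : ℝ)), intervalIntegral.integral_const_mul] at h2
  rw [reg_xi]
  linarith

end general

end Pool.Agent.P8H1.KC
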