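import Pool.Agent.P8H1.KC.Pos
set_option autoImplicit false

/-!
The rank of the regulator matrix.
-/

namespace Pool.Agent.P8H1.KC

open Pool.Agent.N65.TK (Pt Path FS br dif bnd Rels)

section dft

variable {n : ℕ} {ζ : ℂ} (hζ : IsPrimitiveRoot ζ n)

theorem sum_shift {M : Type*} [AddCommGroup M] {f : ℕ → M} (hf : ∀ m, f (m + n) = f m) (j : ℕ) :
    ∑ l ∈ Finset.range n, f (j + l) = ∑ m ∈ Finset.range n, f m := by
  induction j with
  | zero => simp
  | succ j ih =>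
    rw [← ih]
    have h1 := Finset.sum_range_succ (fun l => f (j + l)) n
    have h2 := Finset.sum_range_succ' (fun l => f (j + l)) n
    rw [h1, add_zero, hf j] at h2
    have h3 := add_right_cancel h2
    rw [h3]
    refine Finset.sum_congr rfl fun l _ => ?_
    congr 1
    ring

include hζ

/-- the discrete Fourier transform vanishes outside of `0` -/
theorem dft_zero {R : ℕ → ℝ} (hR : ∀ m, R (m + n) = R m) {c : ℕ → ℝ}
    (h : ∀ l ∈ Finset.range n, ∑ j ∈ Finset.range n, c j * R (j + l) = 0) {a : ℕ} (h1 : 1 ≤ a)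
    (h2 : a < n) (ha : ∑ m ∈ Finset.range n, cf ζ a m * R m ≠ 0) :
    ∑ j ∈ Finset.range n, (c j : ℂ) * (ζ ^ j) ^ (n - a) = 0 := by
  have hpow : ∀ m, (ζ ^ m) ^ n = 1 := fun m => by
    rw [← pow_mul, mul_comm, pow_mul, hζ.pow_eq_one, one_pow]
  have hζn : ∀ m, ζ ^ (m + n) = ζ ^ m := fun m => by rw [pow_add, hζ.pow_eq_one, mul_one]
  have h3 : ∑ l ∈ Finset.range n, (ζ ^ l) ^ a * ∑ j ∈ Finset.range n, (c j : ℂ) * (R (j + l) : ℂ) =
      0 := by
    refine Finset.sum_eq_zero fun l hl => ?_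
    have h4 := h l hl
    have h5 : ∑ j ∈ Finset.range n, (c j : ℂ) * (R (j + l) : ℂ) = 0 := by
      exact_mod_cast h4
    rw [h5, mul_zero]
  have h4 : ∀ j, ∑ l ∈ Finset.range n, (ζ ^ (j + l)) ^ a * (R (j + l) : ℂ) =
      ∑ m ∈ Finset.range n, (ζ ^ m) ^ a * (R m : ℂ) := fun j =>
    sum_shift (f := fun m => (ζ ^ m) ^ a * (R m : ℂ)) (fun m => by rw [hζn, hR]) j
  have h5 : (∑ j ∈ Finset.range n, (c j : ℂ) * (ζ ^ j) ^ (n - a)) *
      ∑ m ∈ Finset.range n, (ζ ^ m) ^ a * (R m : ℂ) = 0 := by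
    have h3' : ∑ j ∈ Finset.range n, ∑ l ∈ Finset.range n,
        (ζ ^ l) ^ a * ((c j : ℂ) * (R (j + l) : ℂ)) = 0 := by
      rw [Finset.sum_comm, ← h3]
      exact Finset.sum_congr rfl fun l _ => (Finset.mul_sum _ _ _).symm
    rw [← h3', Finset.sum_mul]
    refine Finset.sum_congr rfl fun j _ => ?_
    rw [← h4 j, Finset.mul_sum]
    refine Finset.sum_congr rfl fun l _ => ?_
    have h6 : (ζ ^ j) ^ (n - a) * (ζ ^ (j + l)) ^ a = (ζ ^ l) ^ a := by
      have h7 : (ζ ^ j) ^ (n - a) * (ζ ^ j) ^ a = 1 := by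
        rw [← pow_add, Nat.sub_add_cancel h2.le, hpow]
      rw [pow_add, mul_pow, ← mul_assoc, h7, one_mul]
    linear_combination ((c j : ℂ) * (R (j + l) : ℂ)) * h6
  refine (mul_eq_zero.1 h5).resolve_right fun h6 => ha ?_
  have h7 := congrArg Complex.re h6
  rw [Complex.re_sum, Complex.zero_re] at h7
  rw [← h7]
  refine Finset.sum_congr rfl fun m _ => ?_
  unfold cf
  simp

theorem dft_const {R : ℕ → ℝ} (hR : ∀ m, R (m + n) = R m)
    (ha : ∀ a ∈ Finset.Ico 1 n, ∑ m ∈ Finset.range n, cf ζ a m * R m ≠ 0) {c : ℕ → ℝ}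
    (h : ∀ l ∈ Finset.range n, ∑ j ∈ Finset.range n, c j * R (j + l) = 0) {i : ℕ} (hi : i < n) :
    (n : ℝ) * c i = ∑ j ∈ Finset.range n, c j := by
  have hpow : ∀ m, (ζ ^ m) ^ n = 1 := fun m => by
    rw [← pow_mul, mul_comm, pow_mul, hζ.pow_eq_one, one_pow]
  have h1 : ∀ b ∈ Finset.Ico 1 n, ∑ j ∈ Finset.range n, (c j : ℂ) * (ζ ^ j) ^ b = 0 := by
    intro b hb
    rw [Finset.mem_Ico] at hb
    have h2 := dft_zero hζ hR h (a := n - b) (by omega) (by omega)
      (ha (n - b) (Finset.mem_Ico.2 ⟨by omega, by omega⟩))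
    rwa [Nat.sub_sub_self hb.2.le] at h2
  have h2 : ∑ b ∈ Finset.range n, (ζ ^ (n - i)) ^ b * ∑ j ∈ Finset.range n, (c j : ℂ) * (ζ ^ j) ^ b =
      ∑ j ∈ Finset.range n, (c j : ℂ) := by
    have h3 : Finset.range n = insert 0 (Finset.Ico 1 n) := by
      ext b
      rw [Finset.mem_range, Finset.mem_insert, Finset.mem_Ico]
      omega
    rw [h3, Finset.sum_insert (by simp), ← h3, Finset.sum_eq_zero (s := Finset.Ico 1 n) fun b hb => by
      rw [h1 b hb, mul_zero]]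
    simp
  have h3 : ∑ b ∈ Finset.range n, (ζ ^ (n - i)) ^ b * ∑ j ∈ Finset.range n, (c j : ℂ) * (ζ ^ j) ^ b =
      n * c i := by
    simp only [Finset.mul_sum]
    rw [Finset.sum_comm]
    have h4 : ∀ j ∈ Finset.range n, ∑ b ∈ Finset.range n, (ζ ^ (n - i)) ^ b * ((c j : ℂ) * (ζ ^ j) ^ b) =
        if j = i then (n : ℂ) * c j else 0 := by
      intro j hj
      rw [Finset.mem_range] at hj
      have h5 : ∀ b, (ζ ^ (n - i)) ^ b * ((c j : ℂ) * (ζ ^ j) ^ b) =
          c j * (ζ ^ b) ^ (n - i + j) := by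
        intro b
        ring
      simp only [h5]
      rw [← Finset.mul_sum]
      split_ifs with h6
      · have h7 : n ∣ n - i + j := ⟨1, by omega⟩
        rw [sum_pow_n hζ h7]
        ring
      · have h7 : ¬n ∣ n - i + j := by
          rintro ⟨l, hl⟩
          rcases Nat.lt_or_ge l 2 with h8 | h8
          · interval_cases l
            · omega
            · omega
          · have h9 : n * 2 ≤ n * l := Nat.mul_le_mul_left n h8
            omega
        rw [sum_pow_zero hζ h7, mul_zero]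
    rw [Finset.sum_congr rfl h4, Finset.sum_ite_eq' (Finset.range n) i,
      if_pos (Finset.mem_range.2 hi)]
  rw [h3] at h2
  exact_mod_cast h2

end dft

section classes

variable {K : Type*} [Field K] {n : ℕ} {ζ η : Kˣ}

/-- The element `({y / η}_2 - {1 / (η y)}_2) ⊗ (1 - ζ^j x) - n {ζ^j x}_2 ⊗ y`, where `ζ` is a
primitive `n`-th root of unity and `η + 1/η = 1`. -/
noncomputable def xiJ (hζ : IsPrimitiveRoot ζ n) (hη : (η : K) + (η⁻¹ : Kˣ) = 1) (j : ℕ) :
    FS (Crv K n) :=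
  xi (ε := ζ ^ j) (by rw [← pow_mul, mul_comm, pow_mul, hζ.pow_eq_one, one_pow]) hη

theorem exists_loops (hn : 2 ≤ n) (hζ : IsPrimitiveRoot ζ n) (hη : (η : K) + (η⁻¹ : Kˣ) = 1)
    (σ : K →+* ℂ) : ∃ γ : Fin n → Path (Crv K n),
      (∀ l t a, (γ l).e t (cst K n a) = σ a) ∧
      ∀ c : Fin n → ℝ, (∀ l, ∑ j : Fin n, c j * (γ l).reg (xiJ hζ hη j) = 0) → ∀ i j, c i = c j := by
  have hn0 : 0 < n := by omega
  have hσζ : IsPrimitiveRoot (σ (ζ : K)) n :=
    ((IsPrimitiveRoot.coe_units_iff.2 hζ).map_of_injective σ.injective)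
  obtain ⟨e, he, he2, hF⟩ := exists_e hσζ hn0
  set ρ : ℕ → ℂˣ := fun l => Units.map (σ : K →* ℂ) (ζ ^ l) with hρ
  have hρn : ∀ l, (ρ l) ^ n = 1 := by
    intro l
    rw [hρ, ← map_pow, ← pow_mul, mul_comm, pow_mul, hζ.pow_eq_one, one_pow, map_one]
  refine ⟨fun l => pth σ hn0 he (hρn l), fun l t a => pth_cst σ hn0 he (hρn l) t a, ?_⟩
  intro c hc
  set R : ℕ → ℝ := fun m => rg n ((σ (ζ : K)) ^ m) e with hRdef
  have hR : ∀ m, R (m + n) = R m := by
    intro m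
    rw [hRdef]
    simp only
    rw [pow_add, hσζ.pow_eq_one, mul_one]
  have hval : ∀ j l : ℕ, (pth σ hn0 he (hρn l)).reg (xiJ hζ hη j) = R (j + l) := by
    intro j l
    unfold xiJ
    rw [reg_pth σ hn0 he (hρn l) he2]
    rw [hRdef]
    simp only
    congr 1
    rw [hρ, pow_add]
    simp
  set c' : ℕ → ℝ := fun j => if h : j < n then c ⟨j, h⟩ else 0 with hc'
  have hc'' : ∀ j : Fin n, c' j = c j := fun j => by
    rw [hc']
    simp
  have h1 : ∀ l ∈ Finset.range n, ∑ j ∈ Finset.range n, c' j * R (j + l) = 0 := by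
    intro l hl
    rw [Finset.mem_range] at hl
    rw [← hc ⟨l, hl⟩, Finset.sum_range]
    refine Finset.sum_congr rfl fun j _ => ?_
    rw [hc'', ← hval j l]
  intro i j
  have h2 := dft_const hσζ hR hF h1 i.2
  have h3 := dft_const hσζ hR hF h1 j.2
  rw [hc''] at h2 h3
  have h4 : (n : ℝ) ≠ 0 := by exact_mod_cast hn0.ne'
  exact mul_left_cancel₀ h4 (h2.trans h3.symm)

end classes

end Pool.Agent.P8H1.KC
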